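import Pool.Agent.NH34.ZO.Germ
import Pool.Agent.Y133.Half.PairBase

/-!
# Extension of the coefficients
-/

open CategoryTheory AlgebraicGeometry

open scoped TensorProduct

universe u v

namespace Pool.Agent.NH34.ZO

open Module Module.End
open Pool.Agent.H914 Pool.Agent.H914.VarClass Pool.Agent.H914.VarClass.Obj
  Pool.Agent.H914.WeilCohomology Pool.Agent.Y133.Half Pool.Agent.Y133.Half.Sys

variable {k : Type u} [Field k] {𝒱 : VarClass k} {ops : CycleOps 𝒱}
  {W : WeilCohomology.{u, v} ops} {X Z : 𝒱.Obj}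

/-- The rank of `S` is negligible with respect to the dimension of `T` on the powers of `X`. -/
def Negl (S T : Sys W) (X : 𝒱.Obj) : Prop :=
  ∀ N : ℕ, ∃ n₀ : ℕ, ∀ n ≥ n₀, N * S.a (pw X n) ≤ finrank W.K (T.C (pw X n))

variable (L : Type v) [Field L] [Algebra W.K L] (S : Sys W)

/-- The inclusion of the classes in the extension. -/
noncomputable def inc (Z : 𝒱.Obj) (c : S.C Z) : (S.base L).C Z :=
  ⟨((1 : L) ⊗ₜ[W.K] (c : W.H Z) : L ⊗[W.K] W.H Z),
    Submodule.tmul_mem_baseChange_of_mem (1 : L) c.2⟩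

lemma inc_span (Z : 𝒱.Obj) :
    Submodule.span (baseW W L).K (Set.range (inc L S Z)) = ⊤ := by
  rw [eq_top_iff]
  rintro ⟨x, hx⟩ _
  have key : ∀ x : L ⊗[W.K] W.H Z, x ∈ (S.C Z).baseChange L →
      ∃ y : (S.base L).C Z, (y : (baseW W L).H Z) = x ∧
        y ∈ Submodule.span (baseW W L).K (Set.range (inc L S Z)) := by
    intro x hx
    refine base_induction (P := fun x : L ⊗[W.K] W.H Z =>
      ∃ y : (S.base L).C Z, (y : (baseW W L).H Z) = x ∧
        y ∈ Submodule.span (baseW W L).K (Set.range (inc L S Z))) ?_ ?_ ?_ hx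
    · exact ⟨0, rfl, Submodule.zero_mem _⟩
    · rintro _ _ ⟨y, rfl, hy⟩ ⟨z, rfl, hz⟩
      exact ⟨y + z, rfl, Submodule.add_mem _ hy hz⟩
    · intro l a ha
      let l' : (baseW W L).K := l
      refine ⟨l' • inc L S Z ⟨a, ha⟩, ?_, Submodule.smul_mem _ _ (Submodule.subset_span ⟨_, rfl⟩)⟩
      change l • ((1 : L) ⊗ₜ[W.K] a : L ⊗[W.K] W.H Z) = l ⊗ₜ[W.K] a
      rw [TensorProduct.smul_tmul', smul_eq_mul, mul_one]
  obtain ⟨y, hy, hy'⟩ := key x hx
  have : y = ⟨x, hx⟩ := Subtype.ext hy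
  rwa [this] at hy'

lemma a_base (Z : 𝒱.Obj) : (S.base L).a Z = S.a Z := by
  have h : rk ((S.base L).F Z 1) = rk (S.F Z 1) := by
    let : Algebra W.K (baseW W L).K := inferInstanceAs (Algebra W.K L)
    refine rk_bc (K := W.K) (L := (baseW W L).K) (inc L S Z) (inc L S Z) (inc_span L S Z)
      (inc_span L S Z) fun x y => ?_
    rw [F_apply, F_apply]
    change formBase L (W.tr Z) (((1 : L) ⊗ₜ[W.K] (x : W.H Z)) * ((1 : L) ⊗ₜ[W.K] (y : W.H Z))) =
      algebraMap W.K L (W.tr Z ((x : W.H Z) * (y : W.H Z)))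
    rw [Algebra.TensorProduct.tmul_mul_tmul, one_mul, formBase_tmul, one_mul]
  exact h

variable {S} {T : Sys W}

lemma negl_base : Negl (S.base L) (T.base L) X ↔ Negl S T X := by
  unfold Negl
  simp only [a_base, finrank_base]

/-- The theorem on germs for a germ which is defined over an algebraically closed extension of the
field of coefficients. -/
theorem fixed_of_germ [IsAlgClosed L] (hST : ∀ X, S.C X ≤ T.C X) (h : ¬ Negl S T X)
    (G : Germ (S.base L)) {q : ℕ} {x : W.H (pw X q)} (hx : x ∈ T.C (pw X q)) :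
    ∃ n : ℕ, 0 < n ∧ (G.A (pw X q) ^ n) ((1 : L) ⊗ₜ[W.K] x : L ⊗[W.K] W.H (pw X q)) =
      ((1 : L) ⊗ₜ[W.K] x : L ⊗[W.K] W.H (pw X q)) := by
  have : IsAlgClosed (baseW W L).K := inferInstanceAs (IsAlgClosed L)
  have h1 : ¬ Negl (S.base L) (T.base L) X := fun h' => h ((negl_base L).1 h')
  exact G.main (T := T.base L) (base_le L hST) h1
    (Submodule.tmul_mem_baseChange_of_mem (1 : L) hx)

end Pool.Agent.NH34.ZO
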