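import Pool.Agent.NH34.ZO.Base
import Pool.Agent.NH34.Gal.Basic
import Pool.Agent.NH34.SS.RDefs

/-!
# The germ of an element of the Galois group
-/

open CategoryTheory AlgebraicGeometry

open scoped TensorProduct

universe u v w

namespace Pool.Agent.NH34.ZO

open Module Module.End
open Pool.Agent.H914 Pool.Agent.H914.VarClass Pool.Agent.H914.VarClass.Obj
  Pool.Agent.H914.WeilCohomology Pool.Agent.Y133.Half Pool.Agent.Y133.Half.Sys
  Pool.Agent.NH34.Gal Pool.Agent.NH34.Lin Pool.Agent.NH34.SS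

variable {k : Type u} [Field k] {𝒱 : VarClass k} {ops : CycleOps 𝒱}
  {W : WeilCohomology.{u, v} ops} {X Y Z : 𝒱.Obj} {Γ : Type w} [Group Γ]

lemma ForSmall.pow {P : Γ → Prop} (h : ForSmall P) (g : Γ) :
    ∃ M : ℕ, 0 < M ∧ ∀ n, P (g ^ (M * n)) := by
  obtain ⟨Δ, hΔ, h⟩ := h
  obtain ⟨M, hM, _, hg⟩ := Subgroup.exists_pow_mem_of_index_ne_zero hΔ.index_ne_zero g
  exact ⟨M, hM, fun n => h _ (by rw [pow_mul]; exact Δ.pow_mem hg n)⟩

variable (G : ActionData W Γ) (L : Type v) [Field L] [Algebra W.K L] (g : Γ) (c : L)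

/-- The grading of the extended cohomology. -/
abbrev grB (L : Type v) [Field L] [Algebra W.K L] (Z : 𝒱.Obj) (i : ℕ) :
    Submodule L (L ⊗[W.K] W.H Z) := (W.gr Z i).baseChange L

lemma intB (L : Type v) [Field L] [Algebra W.K L] (Z : 𝒱.Obj) :
    DirectSum.IsInternal (grB (W := W) L Z) := (baseW W L).isInternal Z

open Classical in
/-- The action of `g ^ n` with the twist by `c ^ (- n i)` on the cohomology of degree `i`. -/
noncomputable def opG (n : ℕ) (Z : 𝒱.Obj) : Module.End L (L ⊗[W.K] W.H Z) :=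
  scal (intB L Z) (fun i => (c⁻¹) ^ (n * i)) ∘ₗ
    (if h : g ^ n ∈ G.D Z then (G.act Z ⟨g ^ n, h⟩).toLinearMap.baseChange L else LinearMap.id)

variable {G L g c}

lemma hom_ind {P : L ⊗[W.K] W.H Z → Prop} (hadd : ∀ x y, P x → P y → P (x + y))
    (h : ∀ (l : L) (i : ℕ), ∀ a ∈ W.gr Z i, P (l ⊗ₜ[W.K] a)) (x : L ⊗[W.K] W.H Z) : P x := by
  have h0 : P 0 := by
    have := h 0 0 0 (Submodule.zero_mem _)
    rwa [TensorProduct.tmul_zero] at this
  refine tmul_induction (P := P) h0 hadd ?_ x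
  intro l a
  refine gr_induction (W.isInternal Z) (p := fun a => P (l ⊗ₜ[W.K] a)) (fun i a ha => h l i a ha)
    ?_ a
  intro a b ha hb
  rw [TensorProduct.tmul_add]
  exact hadd _ _ ha hb

variable (hG : IsGaloisTheory G)
include hG

lemma opG_tmul {n : ℕ} (h : g ^ n ∈ G.D Z) (l : L) {i : ℕ} {a : W.H Z} (ha : a ∈ W.gr Z i) :
    opG G L g c n Z (l ⊗ₜ[W.K] a) = (c⁻¹) ^ (n * i) • (l ⊗ₜ[W.K] G.act Z ⟨g ^ n, h⟩ a) := by
  classical
  rw [opG, dif_pos h, LinearMap.comp_apply, LinearMap.baseChange_tmul]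
  have h1 : (l ⊗ₜ[W.K] G.act Z ⟨g ^ n, h⟩ a : L ⊗[W.K] W.H Z) ∈ grB (W := W) L Z i :=
    Submodule.tmul_mem_baseChange_of_mem l (hG.gr_mem Z _ i a ha)
  exact scal_apply (intB L Z) _ h1

lemma opG_mul {n : ℕ} (h : g ^ n ∈ G.D Z) (x y : L ⊗[W.K] W.H Z) :
    opG G L g c n Z (x * y) = opG G L g c n Z x * opG G L g c n Z y := by
  refine hom_ind (P := fun x => opG G L g c n Z (x * y) = opG G L g c n Z x * opG G L g c n Z y)
    ?_ ?_ x
  · intro a b ha hb
    rw [add_mul, map_add, ha, hb, map_add, add_mul]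
  intro l i a ha
  refine hom_ind (P := fun y => opG G L g c n Z (l ⊗ₜ[W.K] a * y) =
    opG G L g c n Z (l ⊗ₜ[W.K] a) * opG G L g c n Z y) ?_ ?_ y
  · intro x y hx hy
    rw [mul_add, map_add, hx, hy, map_add, mul_add]
  intro l' j b hb
  rw [Algebra.TensorProduct.tmul_mul_tmul, opG_tmul hG h _ (W.mul_mem ha hb), opG_tmul hG h l ha,
    opG_tmul hG h l' hb, smul_mul_smul_comm, Algebra.TensorProduct.tmul_mul_tmul, map_mul,
    ← pow_add, mul_add]

lemma opG_add {m n : ℕ} (hm : g ^ m ∈ G.D Z) (hn : g ^ n ∈ G.D Z) (x : L ⊗[W.K] W.H Z) :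
    opG G L g c m Z (opG G L g c n Z x) = opG G L g c (m + n) Z x := by
  refine hom_ind (P := fun x => opG G L g c m Z (opG G L g c n Z x) = opG G L g c (m + n) Z x)
    ?_ ?_ x
  · intro a b ha hb
    rw [map_add, map_add, map_add, ha, hb]
  intro l i a ha
  have h' : g ^ (m + n) ∈ G.D Z := by rw [pow_add]; exact (G.D Z).mul_mem hm hn
  have e : (⟨g ^ (m + n), h'⟩ : G.D Z) = ⟨g ^ m, hm⟩ * ⟨g ^ n, hn⟩ := Subtype.ext (pow_add g m n)
  rw [opG_tmul hG hn l ha, map_smul, opG_tmul hG hm l (hG.gr_mem Z _ i a ha), opG_tmul hG h' l ha,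
    smul_smul, e, map_mul, add_mul, pow_add, mul_comm ((c⁻¹) ^ (m * i))]
  rfl

lemma opG_zero (x : L ⊗[W.K] W.H Z) : opG G L g c 0 Z x = x := by
  refine hom_ind (P := fun x => opG G L g c 0 Z x = x) ?_ ?_ x
  · intro a b ha hb
    rw [map_add, ha, hb]
  intro l i a ha
  have h0 : g ^ 0 ∈ G.D Z := by rw [pow_zero]; exact (G.D Z).one_mem
  have e : (⟨g ^ 0, h0⟩ : G.D Z) = 1 := Subtype.ext (pow_zero g)
  rw [opG_tmul hG h0 l ha, e, map_one, zero_mul, pow_zero, one_smul]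
  rfl

lemma opG_pow {n : ℕ} (hn : g ^ n ∈ G.D Z) (m : ℕ) (x : L ⊗[W.K] W.H Z) :
    (opG G L g c n Z ^ m) x = opG G L g c (n * m) Z x := by
  induction m generalizing x with
  | zero => rw [pow_zero, mul_zero, opG_zero hG]; rfl
  | succ m ih =>
    rw [pow_succ, End.mul_apply, ih, opG_add hG (by rw [pow_mul]; exact (G.D Z).pow_mem hn m) hn]
    rfl

lemma opG_inj (hc : c ≠ 0) {n : ℕ} (h : g ^ n ∈ G.D Z) :
    Function.Injective (opG G L g c n Z) := by
  let B : Module.End L (L ⊗[W.K] W.H Z) := scal (intB L Z) (fun i => c ^ (n * i)) ∘ₗ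
      (G.act Z (⟨g ^ n, h⟩ : G.D Z)⁻¹).toLinearMap.baseChange L
  have hB : ∀ x, B (opG G L g c n Z x) = x := by
    intro x
    refine hom_ind (P := fun x => B (opG G L g c n Z x) = x) ?_ ?_ x
    · intro a b ha hb
      rw [map_add, map_add, ha, hb]
    intro l i a ha
    rw [opG_tmul hG h l ha, map_smul]
    have h1 : (l ⊗ₜ[W.K] a : L ⊗[W.K] W.H Z) ∈ (W.gr Z i).baseChange L :=
      Submodule.tmul_mem_baseChange_of_mem l ha
    have h2 : (G.act Z (⟨g ^ n, h⟩ : G.D Z)⁻¹).toLinearMap.baseChange L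
        (l ⊗ₜ[W.K] G.act Z ⟨g ^ n, h⟩ a) = l ⊗ₜ[W.K] a := by
      rw [LinearMap.baseChange_tmul]
      congr 1
      change (G.act Z (⟨g ^ n, h⟩ : G.D Z)⁻¹ * G.act Z ⟨g ^ n, h⟩) a = a
      rw [← map_mul, inv_mul_cancel, map_one]
      rfl
    have h3 : B (l ⊗ₜ[W.K] G.act Z ⟨g ^ n, h⟩ a) = c ^ (n * i) • (l ⊗ₜ[W.K] a) := by
      rw [LinearMap.comp_apply, h2]
      exact scal_apply (intB L Z) _ h1
    rw [h3, smul_smul, ← mul_pow, inv_mul_cancel₀ hc, one_pow, one_smul]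
  exact Function.LeftInverse.injective hB

lemma opG_map (f : Y ⟶ Z) : ∃ M : ℕ, 0 < M ∧ ∀ m, g ^ (M * m) ∈ G.D Y → g ^ (M * m) ∈ G.D Z →
    ∀ x, opG G L g c (M * m) Y (mapBase L (W.map f) x) =
      mapBase L (W.map f) (opG G L g c (M * m) Z x) := by
  obtain ⟨M, hM, h⟩ := ForSmall.pow (hG.map_act Y Z f) g
  refine ⟨M, hM, fun m hY hZ x => ?_⟩
  refine hom_ind (P := fun x => opG G L g c (M * m) Y (mapBase L (W.map f) x) =
      mapBase L (W.map f) (opG G L g c (M * m) Z x)) ?_ ?_ x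
  · intro a b ha hb
    rw [map_add, map_add, ha, hb, map_add, map_add]
  intro l i a ha
  rw [Algebra.TensorProduct.map_tmul, AlgHom.id_apply, opG_tmul hG hY l (W.map_mem f ha),
    opG_tmul hG hZ l ha, map_smul, Algebra.TensorProduct.map_tmul, AlgHom.id_apply, h m hY hZ]

lemma opG_tr (hc : c ^ 2 = algebraMap W.K L (G.χ g : W.K)) {n : ℕ} (h : g ^ n ∈ G.D Z)
    (x : L ⊗[W.K] W.H Z) :
    formBase L (W.tr Z) (opG G L g c n Z x) = formBase L (W.tr Z) x := by
  have hc0 : c ≠ 0 := by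
    rintro rfl
    rw [zero_pow two_ne_zero] at hc
    exact (G.χ g).ne_zero ((algebraMap W.K L).injective (hc.symm.trans (map_zero _).symm))
  refine hom_ind (P := fun x => formBase L (W.tr Z) (opG G L g c n Z x) =
    formBase L (W.tr Z) x) ?_ ?_ x
  · intro a b ha hb
    rw [map_add, map_add, map_add, ha, hb]
  intro l i a ha
  rw [opG_tmul hG h l ha, map_smul, formBase_tmul, formBase_tmul, hG.tr_act Z ⟨g ^ n, h⟩]
  by_cases hi : i = 2 * Z.dim
  · have e : ((G.χ (g ^ n) : W.Kˣ) : W.K) ^ Z.dim = (G.χ g : W.K) ^ (n * Z.dim) := by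
      rw [map_pow, Units.val_pow_eq_pow_val, ← pow_mul]
    rw [e, map_mul, map_pow, ← hc, hi, smul_eq_mul, ← pow_mul, inv_pow,
      show n * (2 * Z.dim) = 2 * (n * Z.dim) by ring]
    field_simp
  · rw [W.tr_eq_zero ha hi, mul_zero, map_zero, mul_zero, smul_zero]

lemma opG_tate (hc : c ^ 2 = algebraMap W.K L (G.χ g : W.K)) {j : ℕ} {a : W.H Z}
    (ha : IsTate G Z j a) : ∃ M : ℕ, 0 < M ∧ ∀ m, g ^ (M * m) ∈ G.D Z →
      opG G L g c (M * m) Z ((1 : L) ⊗ₜ[W.K] a) = (1 : L) ⊗ₜ[W.K] a := by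
  have hc0 : c ≠ 0 := by
    rintro rfl
    rw [zero_pow two_ne_zero] at hc
    exact (G.χ g).ne_zero ((algebraMap W.K L).injective (hc.symm.trans (map_zero _).symm))
  obtain ⟨M, hM, h⟩ := ForSmall.pow ha.2 g
  refine ⟨M, hM, fun m hZ => ?_⟩
  rw [opG_tmul hG hZ 1 ha.1, h m hZ]
  have e : ((G.χ (g ^ (M * m)) : W.Kˣ) : W.K) ^ j = (G.χ g : W.K) ^ (M * m * j) := by
    rw [map_pow, Units.val_pow_eq_pow_val, ← pow_mul]
  rw [e, TensorProduct.tmul_smul, ← algebraMap_smul L ((G.χ g : W.K) ^ (M * m * j)), smul_smul, map_pow, ← hc, ← pow_mul,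
    inv_pow, show M * m * (2 * j) = 2 * (M * m * j) by ring, inv_mul_cancel₀ (pow_ne_zero _ hc0),
    one_smul]

lemma fix_tate (hc : c ^ 2 = algebraMap W.K L (G.χ g : W.K)) {n : ℕ} (hn0 : 0 < n)
    (hn : g ^ n ∈ G.D Z) {s : L ⊗[W.K] W.H Z} (hs : s ∈ (tateSpace G Z).baseChange L) :
    s ∈ uni (opG G L g c n Z) 1 := by
  refine base_induction (P := fun s => s ∈ uni (opG G L g c n Z) 1) (Submodule.zero_mem _)
    (fun _ _ => Submodule.add_mem _) ?_ hs
  intro l a ha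
  have h1 : (l ⊗ₜ[W.K] a : L ⊗[W.K] W.H Z) = l • ((1 : L) ⊗ₜ[W.K] a) := by
    rw [TensorProduct.smul_tmul', smul_eq_mul, mul_one]
  rw [h1]
  refine Submodule.smul_mem _ _ ?_
  clear h1
  unfold tateSpace tateSpan at ha
  induction ha using Submodule.span_induction with
  | mem a ha =>
    obtain ⟨j, ha⟩ := ha
    obtain ⟨M, hM, h2⟩ := opG_tate hG hc (a := a) (j := j) ha
    refine ⟨M, hM, ?_⟩
    rw [pow_one, LinearMap.sub_apply, End.one_apply, opG_pow hG hn, mul_comm n,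
      h2 n (by rw [mul_comm, pow_mul]; exact (G.D Z).pow_mem hn M), sub_self]
  | zero => rw [TensorProduct.tmul_zero]; exact Submodule.zero_mem _
  | add x y _ _ hx hy => rw [TensorProduct.tmul_add]; exact Submodule.add_mem _ hx hy
  | smul r x _ hx =>
    rw [TensorProduct.tmul_smul, ← algebraMap_smul L r]
    exact Submodule.smul_mem _ _ hx

lemma fix_tate' (hc : c ^ 2 = algebraMap W.K L (G.χ g : W.K)) {n : ℕ} (hn0 : 0 < n)
    (hn : g ^ n ∈ G.D Z) {s : L ⊗[W.K] W.H Z} (hs : s ∈ (tateSpace G Z).baseChange L) :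
    ∃ M : ℕ, 0 < M ∧ (opG G L g c n Z ^ M) s = s := by
  obtain ⟨M, hM, h⟩ := fix_tate hG hc hn0 hn hs
  refine ⟨M, hM, ?_⟩
  rw [pow_one, LinearMap.sub_apply, End.one_apply, sub_eq_zero] at h
  exact h

lemma exists_exp (g : Γ) (Z : 𝒱.Obj) :
    ∃ n : ℕ, 0 < n ∧ g ^ n ∈ G.D Z := by
  obtain ⟨n, hn, _, h⟩ :=
    Subgroup.exists_pow_mem_of_index_ne_zero (hG.finite Z).index_ne_zero g
  exact ⟨n, hn, h⟩

/-- The germ of an element of the Galois group. -/
noncomputable def galGerm {S : Sys W} (hS : ∀ Z, S.C Z ≤ tateSpace G Z)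
    (hc : c ^ 2 = algebraMap W.K L (G.χ g : W.K)) : Germ (S.base L) where
  A Z := opG G L g c (exists_exp hG g Z).choose Z
  w Z := (exists_exp hG g Z).choose
  w_pos Z := (exists_exp hG g Z).choose_spec.1
  inj Z := opG_inj hG (by
    rintro rfl
    rw [zero_pow two_ne_zero] at hc
    exact (G.χ g).ne_zero ((algebraMap W.K L).injective (hc.symm.trans (map_zero _).symm)))
    (exists_exp hG g Z).choose_spec.2
  mul Z a b := opG_mul hG (exists_exp hG g Z).choose_spec.2 a b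
  map {Y Z} f := by
    obtain ⟨M, hM, h⟩ := opG_map (L := L) (c := c) (g := g) hG f
    have hY := (exists_exp hG g Y).choose_spec
    have hZ := (exists_exp hG g Z).choose_spec
    set y := (exists_exp hG g Y).choose
    set z := (exists_exp hG g Z).choose
    refine ⟨M, hM, fun b => ?_⟩
    have h1 := h (y * z) (by
      rw [show M * (y * z) = y * (M * z) by ring, pow_mul]; exact (G.D Y).pow_mem hY.2 _) (by
      rw [show M * (y * z) = z * (M * y) by ring, pow_mul]; exact (G.D Z).pow_mem hZ.2 _) b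
    have h2 := opG_pow (L := L) (c := c) hG hY.2 (M * z) (mapBase L (W.map f) b)
    have h3 := opG_pow (L := L) (c := c) hG hZ.2 (M * y) b
    rw [show y * (M * z) = M * (y * z) by ring] at h2
    rw [show z * (M * y) = M * (y * z) by ring] at h3
    change (opG G L g c y Y ^ (M * z)) (mapBase L (W.map f) b) =
      mapBase L (W.map f) ((opG G L g c z Z ^ (M * y)) b)
    rw [h2, h3, h1]
  tr Z a := opG_tr hG hc (exists_exp hG g Z).choose_spec.2 a
  fix Z s hs := by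
    have h1 : (s : L ⊗[W.K] W.H Z) ∈ (tateSpace G Z).baseChange L :=
      Submodule.baseChange_mono L (hS Z) hs
    exact fix_tate' hG hc (exists_exp hG g Z).choose_spec.1 (exists_exp hG g Z).choose_spec.2 h1

/-- Every element of the Galois group has finite order on the classes of `T`, if the rank of a system
`S` of Tate classes is not negligible. -/
theorem finite_order {S T : Sys W} (hST : ∀ X, S.C X ≤ T.C X) (hS : ∀ Z, S.C Z ≤ tateSpace G Z)
    (h : ¬ Negl S T X) (g : Γ) {q j : ℕ} {x : W.H (pw X q)} (hx : x ∈ T.C (pw X q))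
    (hxj : x ∈ W.gr (pw X q) (2 * j)) :
    ∃ n : ℕ, 0 < n ∧ ∃ h : g ^ n ∈ G.D (pw X q),
      G.act (pw X q) ⟨g ^ n, h⟩ x = (G.χ g : W.K) ^ (n * j) • x := by
  let L := AlgebraicClosure W.K
  obtain ⟨c, hc⟩ := IsAlgClosed.exists_pow_nat_eq (algebraMap W.K L (G.χ g : W.K)) two_pos
  obtain ⟨n, hn, h1⟩ := fixed_of_germ L hST h (galGerm hG hS hc) hx
  have hw := (exists_exp hG g (pw X q)).choose_spec
  set w := (exists_exp hG g (pw X q)).choose with hwdef
  have hwn : g ^ (w * n) ∈ G.D (pw X q) := by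
    rw [pow_mul]; exact (G.D _).pow_mem hw.2 n
  refine ⟨w * n, Nat.mul_pos hw.1 hn, hwn, ?_⟩
  have h2 : (opG G L g c w (pw X q) ^ n) ((1 : L) ⊗ₜ[W.K] x) = (1 : L) ⊗ₜ[W.K] x := h1
  rw [opG_pow hG hw.2, opG_tmul hG hwn 1 hxj] at h2
  have hc0 : c ≠ 0 := by
    rintro rfl
    rw [zero_pow two_ne_zero] at hc
    exact (G.χ g).ne_zero ((algebraMap W.K L).injective (hc.symm.trans (map_zero _).symm))
  have h3 : (1 : L) ⊗ₜ[W.K] (G.act (pw X q) ⟨g ^ (w * n), hwn⟩ x -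
      (G.χ g : W.K) ^ (w * n * j) • x) = 0 := by
    have h4 := congrArg (fun y => c ^ (w * n * (2 * j)) • y) h2
    simp only [smul_smul] at h4
    rw [← mul_pow, mul_inv_cancel₀ hc0, one_pow, one_smul] at h4
    rw [TensorProduct.tmul_sub, h4, TensorProduct.tmul_smul,
      ← algebraMap_smul L ((G.χ g : W.K) ^ (w * n * j)), map_pow, ← hc, ← pow_mul,
      show w * n * (2 * j) = 2 * (w * n * j) by ring, sub_self]
  exact sub_eq_zero.1 (tmul_injective _ h3)

end Pool.Agent.NH34.ZO
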