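import Pool.Agent.NH34.ZO.Torsion
import Pool.Agent.NH34.ZO.GalGerm
import Pool.Agent.NH34.Gal.CDefs

/-!
# Systems of classes with many Tate classes consist of Tate classes
-/

open CategoryTheory AlgebraicGeometry

universe u v w

namespace Pool.Agent.NH34.ZO

open Module Module.End
open Pool.Agent.H914 Pool.Agent.H914.VarClass Pool.Agent.H914.VarClass.Obj
  Pool.Agent.H914.WeilCohomology Pool.Agent.Y133.Half Pool.Agent.Y133.Half.Sys
  Pool.Agent.NH34.Gal Pool.Agent.NH34.Lin Pool.Agent.NH34.SS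

variable {k : Type u} [Field k] {𝒱 : VarClass k} {ops : CycleOps 𝒱}
  {W : WeilCohomology.{u, v} ops} {X Y Z : 𝒱.Obj} {Γ : Type w} [Group Γ] [TopologicalSpace Γ]
  [IsTopologicalGroup Γ] [CompactSpace Γ] [TotallyDisconnectedSpace Γ] {ℓ : ℕ} [Fact ℓ.Prime]
  {e : W.K ≃+* ℚ_[ℓ]} {G : ActionData W Γ}

/-- **Systems of classes.** Let `S ≤ T` be systems of classes. If the classes in `S` are Tate classes
and the rank of `S` is not negligible in comparison with the dimension of `T` on the powers of `X`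
then the homogeneous classes in `T` are Tate classes on all powers of `X`. -/
theorem isTate_of_not_negl (hG : IsGaloisTheory G) (hc : IsContinuousTheory e G) {S T : Sys W}
    (hST : ∀ X, S.C X ≤ T.C X) (hS : ∀ Z, S.C Z ≤ tateSpace G Z) (h : ¬ Negl S T X) {q j : ℕ}
    {x : W.H (pw X q)} (hx : x ∈ T.C (pw X q)) (hxj : x ∈ W.gr (pw X q) (2 * j)) :
    IsTate G (pw X q) j x :=
  ⟨hxj, almostTwisted_of_torsion hc.1 (hc.2 _) fun g => finite_order hG hST hS h g hx hxj⟩

end Pool.Agent.NH34.ZO
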