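import Pool.Agent.Y133.Half.Main2

/-!
# Long chains of stable subspaces from degree functions
-/

open CategoryTheory AlgebraicGeometry

universe u v

namespace Pool.Agent.NH34.ZO

open Module
open Pool.Agent.H914 Pool.Agent.H914.VarClass Pool.Agent.H914.VarClass.Obj
  Pool.Agent.H914.WeilCohomology Pool.Agent.Y133.Half Pool.Agent.Y133.Half.Sys

variable {k : Type u} [Field k] {𝒱 : VarClass k} {ops : CycleOps 𝒱}
  {W : WeilCohomology.{u, v} ops} {X : 𝒱.Obj}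

/-- A degree function: a filtration `F` by subspaces which are stable under the correspondences in
`S`, and a relation `Deg Z n x` (the class `x` has the exact degree `n`), additive for products. -/
structure DegFun (S : Sys W) where
  F : ∀ Z : 𝒱.Obj, ℕ → Submodule W.K (W.H Z)
  Deg : ∀ Z : 𝒱.Obj, ℕ → W.H Z → Prop
  mono : ∀ Z n, F Z n ≤ F Z (n + 1)
  stable : ∀ Z n, ∀ a ∈ S.Op Z Z, ∀ x ∈ F Z n, a x ∈ F Z n
  mem : ∀ {Z n x}, Deg Z n x → x ∈ F Z n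
  notMem : ∀ {Z n x}, Deg Z (n + 1) x → x ∉ F Z n
  xp : ∀ {Z Q m n x y}, Deg Z m x → Deg Q n y → Deg (Z.prod Q) (m + n) (xp W x y)
  zero : ∀ {Z} {l : W.H Z}, l ∈ S.C Z → l ≠ 0 → Deg Z 0 l

namespace DegFun

variable {S T : Sys W} (D : DegFun S)

lemma chain (hST : ∀ X, S.C X ≤ T.C X) {l : W.H X} (hl : l ∈ S.C X) (hl1 : W.tr X l = 1) {q : ℕ}
    {x : W.H (pw X q)} (hx : x ∈ T.C (pw X q)) (hx1 : D.Deg _ 1 x) (N p : ℕ) :
    ∃ (m : ℕ) (P : 𝒱.Obj) (M : ℕ → Submodule W.K (W.H P)),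
      m % 2 = p % 2 ∧ Nonempty (P ≅ pw X m) ∧ (∀ n, ∀ a ∈ S.Op P P, ∀ m ∈ M n, a m ∈ M n) ∧
      (∀ n < N, M n < M (n + 1)) ∧ M N ≤ T.C P := by
  have key : ∀ N, ∃ (m : ℕ) (P : 𝒱.Obj), Nonempty (P ≅ pw X m) ∧
      ∃ y : ℕ → W.H P, ∀ n ≤ N, y n ∈ T.C P ∧ D.Deg P n (y n) := by
    intro N
    induction N with
    | zero =>
      refine ⟨0, X, ⟨Iso.refl _⟩, fun _ => l, fun n hn => ?_⟩
      obtain rfl : n = 0 := by omega
      exact ⟨hST _ hl, D.zero hl (ne_zero_of_tr hl1)⟩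
    | succ N ih =>
      obtain ⟨m, P, ⟨θ⟩, y, hy⟩ := ih
      obtain ⟨μ, hμ, hμ1⟩ := S.exists_lam hl hl1 q
      refine ⟨m + q + 1, P.prod (pw X q), ⟨prodCongr θ (Iso.refl _) ≪≫ pwAdd X m q⟩,
        fun n => if n ≤ N then Pool.Agent.Y133.Half.xp W (y n) μ else
          Pool.Agent.Y133.Half.xp W (y N) x, fun n hn => ?_⟩
      beta_reduce
      by_cases h : n ≤ N
      · rw [if_pos h]
        refine ⟨xp_mem_C T (hy n h).1 (hST _ hμ), ?_⟩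
        exact D.xp (hy n h).2 (D.zero hμ (ne_zero_of_tr hμ1))
      · rw [if_neg h]
        obtain rfl : n = N + 1 := by omega
        exact ⟨xp_mem_C T (hy N le_rfl).1 hx, D.xp (hy N le_rfl).2 hx1⟩
  obtain ⟨m, P, ⟨θ⟩, y, hy⟩ : ∃ (m : ℕ) (P : 𝒱.Obj), Nonempty (P ≅ pw X m) ∧
      ∃ y : ℕ → W.H P, ∀ n ≤ N, y n ∈ T.C P ∧ D.Deg P n (y n) := key N
  have fin : ∀ (m : ℕ) (P : 𝒱.Obj) (_ : P ≅ pw X m) (y : ℕ → W.H P)
      (_ : ∀ n ≤ N, y n ∈ T.C P ∧ D.Deg P n (y n)), m % 2 = p % 2 →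
      ∃ (m : ℕ) (P : 𝒱.Obj) (M : ℕ → Submodule W.K (W.H P)),
      m % 2 = p % 2 ∧ Nonempty (P ≅ pw X m) ∧ (∀ n, ∀ a ∈ S.Op P P, ∀ m ∈ M n, a m ∈ M n) ∧
      (∀ n < N, M n < M (n + 1)) ∧ M N ≤ T.C P := by
    intro m P θ y hy hm
    refine ⟨m, P, fun n => T.C P ⊓ D.F P n, hm, ⟨θ⟩, ?_, ?_, inf_le_left⟩
    · rintro n a ha z ⟨hz1, hz2⟩
      exact ⟨Op.apply hST ha hz1, D.stable P n a ha z hz2⟩
    · intro n hn
      refine SetLike.lt_iff_le_and_exists.2 ⟨inf_le_inf_left _ (D.mono P n), y (n + 1),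
        ⟨(hy (n + 1) hn).1, D.mem (hy (n + 1) hn).2⟩, fun h => D.notMem (hy (n + 1) hn).2 h.2⟩
  by_cases h : m % 2 = p % 2
  · exact fin m P θ y hy h
  · refine fin (m + 1) (P.prod X) (prodCongr θ (Iso.refl _) ≪≫ pwAdd X m 0)
      (fun n => Pool.Agent.Y133.Half.xp W (y n) l) (fun n hn => ?_) (by omega)
    exact ⟨xp_mem_C T (hy n hn).1 (hST _ hl), D.xp (hy n hn).2 (D.zero hl (ne_zero_of_tr hl1))⟩

/-- If a class of `T` has positive degree then the rank of `S` is negligible. -/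
theorem negligible (hST : ∀ X, S.C X ≤ T.C X) (X : 𝒱.Obj) {q : ℕ} {x : W.H (pw X q)}
    (hx : x ∈ T.C (pw X q)) (hx1 : D.Deg _ 1 x) (N : ℕ) :
    ∃ n₀ : ℕ, ∀ n ≥ n₀, N * S.a (pw X n) ≤ finrank W.K (T.C (pw X n)) := by
  by_cases hZ : ∀ l ∈ S.C X, W.tr X l = 0
  · exact ⟨0, fun n _ => by rw [S.a_eq_zero_of hZ n, mul_zero]; exact Nat.zero_le _⟩
  push Not at hZ
  obtain ⟨l', hl', hl'0⟩ := hZ
  obtain ⟨l, hl, hl1⟩ : ∃ l ∈ S.C X, W.tr X l = 1 :=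
    ⟨(W.tr X l')⁻¹ • l', Submodule.smul_mem _ _ hl', by
      rw [map_smul, smul_eq_mul, inv_mul_cancel₀ hl'0]⟩
  have h1 : (1 : W.H X) ≠ 0 := one_ne_zero_of (ne_zero_of_tr hl1)
  have hX : 0 < finrank W.K (W.H X) := by
    have : Nontrivial (W.H X) := ⟨⟨1, 0, h1⟩⟩
    exact Module.finrank_pos
  have hpos : ∀ n, 0 < S.al X n := by
    intro n
    obtain ⟨m, hm, hm1⟩ := S.exists_lam hl hl1 n
    refine S.a_pos (xp_mem_C S hm hm) ?_
    rw [tr_xp, hm1, mul_one]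
  rcases ratio_dichotomy hpos (S.al_convex X) ((finrank W.K (W.H X) : ℝ) ^ 2) with
    ⟨c, hc, hcB, h⟩ | hB
  · have hN0 : (0 : ℝ) < N + 1 := by positivity
    obtain ⟨n₀, hn₀⟩ := small_of (T := T) hc hcB h hX (ε := 1 / (N + 1)) (by positivity)
    refine ⟨n₀, fun n hn => ?_⟩
    have h2 := hn₀ n hn
    have h3 : (N : ℝ) * S.a (pw X n) ≤ finrank W.K (T.C (pw X n)) := by
      have h4 : (0 : ℝ) ≤ finrank W.K (T.C (pw X n)) := Nat.cast_nonneg _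
      have h5 : ((N : ℝ) + 1) * S.a (pw X n) ≤ finrank W.K (T.C (pw X n)) := by
        calc ((N : ℝ) + 1) * S.a (pw X n) ≤ ((N : ℝ) + 1) *
              (1 / (N + 1) * finrank W.K (T.C (pw X n))) := mul_le_mul_of_nonneg_left h2 hN0.le
          _ = _ := by field_simp
      have h6 : (0 : ℝ) ≤ S.a (pw X n) := Nat.cast_nonneg _
      linarith
    exact_mod_cast h3
  obtain ⟨n₀, hn₀⟩ := lower_parity hST hB hX (N + 1)
    (fun p => D.chain hST hl hl1 hx hx1 (N + 1) p) one_pos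
  refine ⟨n₀, fun n hn => ?_⟩
  have h2 := hn₀ n hn
  have h3 : (((N + 1 : ℕ) : ℝ) - 1) = N := by push_cast; ring
  rw [h3] at h2
  exact_mod_cast h2

end DegFun

end Pool.Agent.NH34.ZO
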