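import Mathlib

/-!
# Generalised eigenspaces of powers and of multiplicative operators
-/

namespace Pool.Agent.NH34.ZO

open Module Module.End

section Gen

variable {K V V' V'' : Type*} [Field K] [AddCommGroup V] [Module K V] [AddCommGroup V']
  [Module K V'] [AddCommGroup V''] [Module K V'']

lemma mem_gen {A : End K V} {μ : K} {x : V} :
    x ∈ A.maxGenEigenspace μ ↔ ∃ n : ℕ, ((A - μ • (1 : End K V)) ^ n) x = 0 :=
  mem_maxGenEigenspace _ _ _

/-- Compatibility with intertwining operators. -/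
lemma gen_map {A : End K V} {B : End K V'} {f : V →ₗ[K] V'} (h : ∀ x, B (f x) = f (A x)) {μ : K}
    {x : V} (hx : x ∈ A.maxGenEigenspace μ) : f x ∈ B.maxGenEigenspace μ := by
  obtain ⟨n, hn⟩ := mem_gen.1 hx
  refine mem_gen.2 ⟨n, ?_⟩
  have key : ∀ (n : ℕ) (y : V), ((B - μ • (1 : End K V')) ^ n) (f y) =
      f (((A - μ • (1 : End K V)) ^ n) y) := by
    intro n
    induction n with
    | zero => intro y; rw [pow_zero, pow_zero]; rfl
    | succ n ih =>
      intro y
      rw [pow_succ, pow_succ, End.mul_apply, End.mul_apply, ← ih]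
      congr 1
      rw [LinearMap.sub_apply, LinearMap.sub_apply, LinearMap.smul_apply, LinearMap.smul_apply,
        End.one_apply, End.one_apply, h, map_sub, map_smul]
  rw [key, hn, map_zero]

lemma gen_pow {A : End K V} {μ : K} {x : V} (hx : x ∈ A.maxGenEigenspace μ) (k : ℕ) :
    x ∈ (A ^ k).maxGenEigenspace (μ ^ k) := by
  obtain ⟨n, hn⟩ := mem_gen.1 hx
  refine mem_gen.2 ⟨n, ?_⟩
  have hc : Commute A (μ • (1 : End K V)) := by
    rw [Commute, SemiconjBy, mul_smul_comm, smul_mul_assoc, mul_one, one_mul]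
  have h1 : (μ • (1 : End K V)) ^ k = μ ^ k • (1 : End K V) := by rw [smul_pow, one_pow]
  obtain ⟨Q, hQ, hQc⟩ : ∃ Q : End K V, A ^ k - μ ^ k • (1 : End K V) =
      Q * (A - μ • (1 : End K V)) ∧ Commute Q (A - μ • (1 : End K V)) := by
    refine ⟨∑ i ∈ Finset.range k, A ^ i * (μ • (1 : End K V)) ^ (k - 1 - i), ?_, ?_⟩
    · rw [← h1]
      exact (hc.geom_sum₂_mul k).symm
    · refine Commute.sum_left _ _ _ fun i _ => ?_
      refine Commute.mul_left ?_ ?_
      · exact Commute.sub_right (Commute.pow_left (Commute.refl A) i) (hc.pow_left i)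
      · exact Commute.sub_right (hc.symm.pow_left _) (Commute.pow_left (Commute.refl _) _)
  rw [hQ, hQc.mul_pow, End.mul_apply, hn, map_zero]

/-- Generalised eigenvectors of multiplicative operators. -/
lemma gen_mul {A : End K V} {B : End K V'} {C : End K V''} {m : V →ₗ[K] V' →ₗ[K] V''}
    (h : ∀ x y, C (m x y) = m (A x) (B y)) {μ ν : K} {x : V} {y : V'}
    (hx : x ∈ A.maxGenEigenspace μ) (hy : y ∈ B.maxGenEigenspace ν) :
    m x y ∈ C.maxGenEigenspace (μ * ν) := by
  have key : ∀ (N i j : ℕ), i + j ≤ N → ∀ (x : V) (y : V'),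
      ((A - μ • (1 : End K V)) ^ i) x = 0 → ((B - ν • (1 : End K V')) ^ j) y = 0 →
        ((C - (μ * ν) • (1 : End K V'')) ^ (i + j)) (m x y) = 0 := by
    intro N
    induction N with
    | zero =>
      intro i j hij x y hx hy
      obtain ⟨rfl, rfl⟩ : i = 0 ∧ j = 0 := by omega
      rw [pow_zero, End.one_apply] at hx
      rw [hx, map_zero, LinearMap.zero_apply, map_zero]
    | succ N ih =>
      intro i j hij x y hx hy
      rcases i with _ | i
      · rw [pow_zero, End.one_apply] at hx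
        rw [hx, map_zero, LinearMap.zero_apply, map_zero]
      rcases j with _ | j
      · rw [pow_zero, End.one_apply] at hy
        rw [hy, map_zero, map_zero]
      have e1 : (C - (μ * ν) • (1 : End K V'')) (m x y) =
          m ((A - μ • (1 : End K V)) x) (B y) + m (μ • x) ((B - ν • (1 : End K V')) y) := by
        simp only [LinearMap.sub_apply, LinearMap.smul_apply, End.one_apply, h, map_sub, map_smul,
          LinearMap.smul_apply, mul_smul]
        rw [smul_comm μ ν]
        abel
      have hBc : Commute B ((B - ν • (1 : End K V')) ^ (j + 1)) := by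
        refine Commute.pow_right (Commute.sub_right (Commute.refl B) ?_) _
        rw [Commute, SemiconjBy, mul_smul_comm, smul_mul_assoc, mul_one, one_mul]
      rw [show i + 1 + (j + 1) = (i + j + 1) + 1 by ring, pow_succ, End.mul_apply, e1, map_add]
      have h2 : ((C - (μ * ν) • (1 : End K V'')) ^ (i + j + 1))
          (m ((A - μ • (1 : End K V)) x) (B y)) = 0 := by
        have h3 := ih i (j + 1) (by omega) ((A - μ • (1 : End K V)) x) (B y)
          (by rw [← End.mul_apply, ← pow_succ]; exact hx)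
          (by rw [← End.mul_apply, ← hBc.eq, End.mul_apply, hy, map_zero])
        rw [← add_assoc] at h3
        exact h3
      have h4 : ((C - (μ * ν) • (1 : End K V'')) ^ (i + j + 1))
          (m (μ • x) ((B - ν • (1 : End K V')) y)) = 0 := by
        have h3 := ih (i + 1) j (by omega) (μ • x) ((B - ν • (1 : End K V')) y)
          (by rw [map_smul, hx, smul_zero])
          (by rw [← End.mul_apply, ← pow_succ]; exact hy)
        rw [show i + 1 + j = i + j + 1 by ring] at h3
        exact h3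
      rw [h2, h4, add_zero]
  obtain ⟨i, hi⟩ := mem_gen.1 hx
  obtain ⟨j, hj⟩ := mem_gen.1 hy
  exact mem_gen.2 ⟨i + j, key _ i j le_rfl x y hi hj⟩

/-- Generalised eigenvectors of powers. -/
lemma gen_of_pow [IsAlgClosed K] [FiniteDimensional K V] {A : End K V} {κ : K} {k : ℕ} {x : V}
    (hx : x ∈ (A ^ k).maxGenEigenspace κ) :
    x ∈ ⨆ μ, ⨆ (_ : μ ^ k = κ), A.maxGenEigenspace μ := by
  have htop : x ∈ (⨆ μ, ⨆ (_ : μ ^ k = κ), A.maxGenEigenspace μ) ⊔
      ⨆ μ, ⨆ (_ : μ ^ k ≠ κ), A.maxGenEigenspace μ := by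
    have h1 : (⊤ : Submodule K V) ≤ (⨆ μ, ⨆ (_ : μ ^ k = κ), A.maxGenEigenspace μ) ⊔
      ⨆ μ, ⨆ (_ : μ ^ k ≠ κ), A.maxGenEigenspace μ := by
      rw [← iSup_maxGenEigenspace_eq_top A]
      refine iSup_le fun μ => ?_
      by_cases h : μ ^ k = κ
      · exact le_sup_of_le_left (le_iSup₂_of_le μ h le_rfl)
      · exact le_sup_of_le_right (le_iSup₂_of_le μ h le_rfl)
    exact h1 trivial
  obtain ⟨a, ha, b, hb, rfl⟩ := Submodule.mem_sup.1 htop
  have ha' : a ∈ (A ^ k).maxGenEigenspace κ := by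
    have h1 : (⨆ μ, ⨆ (_ : μ ^ k = κ), A.maxGenEigenspace μ) ≤ (A ^ k).maxGenEigenspace κ :=
      iSup₂_le fun μ hμ y hy => by
        have := gen_pow hy k
        rwa [hμ] at this
    exact h1 ha
  have hb' : b ∈ ⨆ ν, ⨆ (_ : ν ≠ κ), (A ^ k).maxGenEigenspace ν := by
    have h1 : (⨆ μ, ⨆ (_ : μ ^ k ≠ κ), A.maxGenEigenspace μ) ≤
        ⨆ ν, ⨆ (_ : ν ≠ κ), (A ^ k).maxGenEigenspace ν :=
      iSup₂_le fun μ hμ y hy =>
        (le_iSup₂_of_le (f := fun ν (_ : ν ≠ κ) => (A ^ k).maxGenEigenspace ν)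
          (μ ^ k) hμ le_rfl) (gen_pow hy k)
    exact h1 hb
  have hb0 : b = 0 := by
    refine Submodule.disjoint_def.1 (independent_maxGenEigenspace (A ^ k) κ) b ?_ hb'
    have := Submodule.sub_mem _ hx ha'
    rwa [add_sub_cancel_left] at this
  rw [hb0, add_zero]
  exact ha

lemma gen_zero_of_inj {A : End K V} (hA : Function.Injective A) {x : V}
    (hx : x ∈ A.maxGenEigenspace 0) : x = 0 := by
  obtain ⟨n, hn⟩ := mem_gen.1 hx
  rw [zero_smul, sub_zero] at hn
  have h1 : Function.Injective (A ^ n : End K V) := by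
    intro a b hab
    induction n with
    | zero => exact hab
    | succ n ih =>
      rw [pow_succ', End.mul_apply, End.mul_apply] at hab
      have h2 : ∀ n : ℕ, Function.Injective (A ^ n : End K V) := by
        intro n
        induction n with
        | zero => exact fun a b h => h
        | succ n ih =>
          intro a b h
          rw [pow_succ', End.mul_apply, End.mul_apply] at h
          exact ih (hA h)
      exact h2 n (hA hab)
  exact h1 (hn.trans (map_zero _).symm)

end Gen

section Val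

/-- Homomorphisms from the multiplicative group to the additive group of the rational numbers. -/
structure Val (K : Type*) [Field K] where
  v : K → ℚ
  map_mul : ∀ a b, a ≠ 0 → b ≠ 0 → v (a * b) = v a + v b

namespace Val

variable {K : Type*} [Field K] (v : Val K)

lemma one : v.v 1 = 0 := by
  have h := v.map_mul 1 1 one_ne_zero one_ne_zero
  rw [mul_one] at h
  linarith

lemma pow {a : K} (ha : a ≠ 0) (n : ℕ) : v.v (a ^ n) = n * v.v a := by
  induction n with
  | zero => rw [pow_zero, v.one, Nat.cast_zero, zero_mul]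
  | succ n ih =>
    rw [pow_succ, v.map_mul _ _ (pow_ne_zero _ ha) ha, ih]
    push_cast
    ring

open scoped TensorProduct in
/-- A number which is not a root of unity is detected. -/
lemma exists_ne_zero {μ : K} (h0 : μ ≠ 0) (h : ∀ n : ℕ, 0 < n → μ ^ n ≠ 1) :
    ∃ v : Val K, v.v μ ≠ 0 := by
  let M := Additive Kˣ
  let m : M := Additive.ofMul (Units.mk0 μ h0)
  have hm : ∀ n : ℕ, 0 < n → n • m ≠ 0 := by
    intro n hn he
    apply h n hn
    have h1 : Units.mk0 μ h0 ^ n = 1 := he
    have h2 := congrArg Units.val h1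
    rwa [Units.val_pow_eq_pow_val, Units.val_mk0, Units.val_one] at h2
  have hinj : Function.Injective (LinearMap.toSpanSingleton ℤ M m) := by
    rw [← LinearMap.ker_eq_bot, LinearMap.ker_eq_bot']
    intro n hn
    rw [LinearMap.toSpanSingleton_apply] at hn
    by_contra hn0
    rcases lt_or_gt_of_ne hn0 with hlt | hgt
    · apply hm (-n).toNat (by omega)
      rw [← natCast_zsmul, Int.toNat_of_nonneg (by omega), neg_smul, hn, neg_zero]
    · apply hm n.toNat (by omega)
      rw [← natCast_zsmul, Int.toNat_of_nonneg (by omega), hn]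
  have hflat : Module.Flat ℤ ℚ := IsLocalization.flat ℚ (nonZeroDivisors ℤ)
  have hinj' := Module.Flat.lTensor_preserves_injective_linearMap (M := ℚ)
    (LinearMap.toSpanSingleton ℤ M m) hinj
  have hne : (1 : ℚ) ⊗ₜ[ℤ] m ≠ 0 := by
    intro he
    have h1 : (LinearMap.lTensor ℚ (LinearMap.toSpanSingleton ℤ M m)) ((1 : ℚ) ⊗ₜ[ℤ] (1 : ℤ)) =
        0 := by
      rw [LinearMap.lTensor_tmul, LinearMap.toSpanSingleton_apply, one_smul]
      exact he
    have h2 : (1 : ℚ) ⊗ₜ[ℤ] (1 : ℤ) = 0 := hinj' (h1.trans (map_zero _).symm)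
    have h3 := congrArg (TensorProduct.rid ℤ ℚ) h2
    rw [TensorProduct.rid_tmul, one_smul, map_zero] at h3
    exact one_ne_zero h3
  obtain ⟨φ, hφ⟩ : ∃ φ : Module.Dual ℚ (ℚ ⊗[ℤ] M), φ ((1 : ℚ) ⊗ₜ[ℤ] m) ≠ 0 := by
    by_contra hcon
    push Not at hcon
    exact hne ((Module.forall_dual_apply_eq_zero_iff ℚ _).1 hcon)
  classical
  refine ⟨⟨fun a => if ha : a = 0 then 0 else
    φ ((1 : ℚ) ⊗ₜ[ℤ] (Additive.ofMul (Units.mk0 a ha) : M)), ?_⟩, ?_⟩
  · intro a b ha hb
    rw [dif_neg (mul_ne_zero ha hb), dif_neg ha, dif_neg hb, ← map_add, ← TensorProduct.tmul_add]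
    congr 2
    rw [← ofMul_mul]
    congr 1
    ext
    rfl
  · change (if ha : μ = 0 then (0 : ℚ) else
      φ ((1 : ℚ) ⊗ₜ[ℤ] (Additive.ofMul (Units.mk0 μ ha) : M))) ≠ 0
    rw [dif_neg h0]
    exact hφ

end Val

end Val

end Pool.Agent.NH34.ZO
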