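import Pool.Agent.NH34.ZO.Gen

/-!
# Operators with a unipotent power
-/

namespace Pool.Agent.NH34.ZO

open Module Module.End

variable {K V V' V'' : Type*} [Field K] [AddCommGroup V] [Module K V] [AddCommGroup V']
  [Module K V'] [AddCommGroup V''] [Module K V'']

lemma sub_one_pow_dvd (A : End K V) (k l n : ℕ) {x : V} (hx : ((A ^ k - 1) ^ n) x = 0) :
    ((A ^ (k * l) - 1) ^ n) x = 0 := by
  have hc : Commute (A ^ k) (1 : End K V) := Commute.one_right _
  obtain ⟨Q, hQ, hQc⟩ : ∃ Q : End K V, A ^ (k * l) - 1 = Q * (A ^ k - 1) ∧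
      Commute Q (A ^ k - 1) := by
    refine ⟨∑ i ∈ Finset.range l, (A ^ k) ^ i * (1 : End K V) ^ (l - 1 - i), ?_, ?_⟩
    · have := hc.geom_sum₂_mul l
      rw [one_pow, ← pow_mul] at this
      exact this.symm
    · refine Commute.sum_left _ _ _ fun i _ => ?_
      rw [one_pow, mul_one]
      exact Commute.sub_right (Commute.pow_left (Commute.refl _) i) (Commute.one_right _)
  rw [hQ, hQc.mul_pow, End.mul_apply, hx, map_zero]

/-- The vectors which are killed by `(A ^ k - 1) ^ n` for some `k > 0`. -/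
def uni (A : End K V) (n : ℕ) : Submodule K V where
  carrier := {x | ∃ k : ℕ, 0 < k ∧ ((A ^ k - 1) ^ n) x = 0}
  add_mem' := by
    rintro x y ⟨k, hk, hx⟩ ⟨l, hl, hy⟩
    refine ⟨k * l, Nat.mul_pos hk hl, ?_⟩
    have hy' := sub_one_pow_dvd A l k n hy
    rw [mul_comm] at hy'
    rw [map_add, sub_one_pow_dvd A k l n hx, hy', add_zero]
  zero_mem' := ⟨1, one_pos, map_zero _⟩
  smul_mem' := by
    rintro c x ⟨k, hk, hx⟩
    exact ⟨k, hk, by rw [map_smul, hx, smul_zero]⟩

lemma mem_uni {A : End K V} {n : ℕ} {x : V} :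
    x ∈ uni A n ↔ ∃ k : ℕ, 0 < k ∧ ((A ^ k - 1) ^ n) x = 0 := Iff.rfl

lemma uni_mono {A : End K V} {n m : ℕ} (h : n ≤ m) : uni A n ≤ uni A m := by
  rintro x ⟨k, hk, hx⟩
  refine ⟨k, hk, ?_⟩
  obtain ⟨d, rfl⟩ := Nat.exists_eq_add_of_le' h
  rw [pow_add, End.mul_apply, hx, map_zero]

lemma uni_zero {A : End K V} {x : V} : x ∈ uni A 0 ↔ x = 0 := by
  refine ⟨fun ⟨k, _, hx⟩ => ?_, fun h => h ▸ Submodule.zero_mem _⟩
  rwa [pow_zero, End.one_apply] at hx

lemma pow_intertwine {A : End K V} {B : End K V'} {f : V →ₗ[K] V'} {a b : ℕ}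
    (h : ∀ x, (B ^ a) (f x) = f ((A ^ b) x)) (k : ℕ) (x : V) :
    (B ^ (a * k)) (f x) = f ((A ^ (b * k)) x) := by
  induction k generalizing x with
  | zero => simp
  | succ k ih =>
    rw [mul_add, mul_one, pow_add, End.mul_apply, h, ih, mul_add, mul_one, pow_add, End.mul_apply]

lemma sub_one_pow_intertwine {A : End K V} {B : End K V'} {f : V →ₗ[K] V'}
    (h : ∀ x, B (f x) = f (A x)) (n : ℕ) (x : V) :
    ((B - 1) ^ n) (f x) = f (((A - 1) ^ n) x) := by
  induction n generalizing x with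
  | zero => simp
  | succ n ih =>
    rw [pow_succ, pow_succ, End.mul_apply, End.mul_apply, ← ih]
    congr 1
    rw [LinearMap.sub_apply, LinearMap.sub_apply, End.one_apply, End.one_apply, h, map_sub]

lemma uni_map {A : End K V} {B : End K V'} {f : V →ₗ[K] V'} {a b : ℕ} (ha : 0 < a)
    (h : ∀ x, (B ^ a) (f x) = f ((A ^ b) x)) {n : ℕ} {x : V}
    (hx : x ∈ uni A n) : f x ∈ uni B n := by
  obtain ⟨k, hk, hx⟩ := hx
  refine ⟨a * k, Nat.mul_pos ha hk, ?_⟩
  rw [sub_one_pow_intertwine (A := A ^ (b * k)) (pow_intertwine h k)]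
  have := sub_one_pow_dvd A k b n hx
  rw [mul_comm] at this
  rw [this, map_zero]

/-- The binomial formula. -/
lemma binom {A : End K V} {B : End K V'} {C : End K V''} {m : V →ₗ[K] V' →ₗ[K] V''}
    (h : ∀ x y, C (m x y) = m (A x) (B y)) : ∀ (N i j : ℕ), i + j = N → ∀ (x : V) (y : V'),
      ((A - 1) ^ (i + 1)) x = 0 → ((B - 1) ^ (j + 1)) y = 0 →
        ((C - 1) ^ (i + j)) (m x y) =
          ((i + j).choose i : K) • m (((A - 1) ^ i) x) (((B - 1) ^ j) y) := by
  have e1 : ∀ x y, (C - 1) (m x y) = m ((A - 1) x) (B y) + m x ((B - 1) y) := by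
    intro x y
    simp only [LinearMap.sub_apply, End.one_apply, h, map_sub]
    abel
  intro N
  induction N with
  | zero =>
    intro i j hij x y _ _
    obtain ⟨rfl, rfl⟩ : i = 0 ∧ j = 0 := by omega
    simp
  | succ N ih =>
    intro i j hij x y hx hy
    rcases i with _ | i
    · rcases j with _ | j
      · omega
      · have hx1 : (A - 1) x = 0 := by rwa [zero_add, pow_one] at hx
        have h1 := ih 0 j (by omega) x ((B - 1) y) hx
          (by rw [← End.mul_apply, ← pow_succ]; exact hy)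
        rw [zero_add, pow_succ, End.mul_apply, e1, hx1, map_zero, LinearMap.zero_apply, zero_add]
        rw [zero_add] at h1
        rw [h1, ← End.mul_apply, ← pow_succ]
        simp
    · rcases j with _ | j
      · have hy1 : (B - 1) y = 0 := by rwa [zero_add, pow_one] at hy
        have hBy : B y = y := by
          rw [LinearMap.sub_apply, End.one_apply, sub_eq_zero] at hy1
          exact hy1
        have h1 := ih i 0 (by omega) ((A - 1) x) y
          (by rw [← End.mul_apply, ← pow_succ]; exact hx) hy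
        rw [add_zero, pow_succ, End.mul_apply, e1, hy1, map_zero, add_zero, hBy]
        rw [add_zero] at h1
        rw [h1, ← End.mul_apply, ← pow_succ]
        simp
      · have hBc : Commute B ((B - 1) ^ (j + 1 + 1)) :=
          Commute.pow_right (Commute.sub_right (Commute.refl B) (Commute.one_right B)) _
        have hBc' : Commute B ((B - 1) ^ (j + 1)) :=
          Commute.pow_right (Commute.sub_right (Commute.refl B) (Commute.one_right B)) _
        have h1 := ih i (j + 1) (by omega) ((A - 1) x) (B y)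
          (by rw [← End.mul_apply, ← pow_succ]; exact hx)
          (by rw [← End.mul_apply, ← hBc.eq, End.mul_apply, hy, map_zero])
        have h2 := ih (i + 1) j (by omega) x ((B - 1) y) hx
          (by rw [← End.mul_apply, ← pow_succ]; exact hy)
        have hBy : ((B - 1) ^ (j + 1)) (B y) = ((B - 1) ^ (j + 1)) y := by
          rw [← End.mul_apply, ← hBc'.eq, End.mul_apply]
          have h3 : (B - 1) (((B - 1) ^ (j + 1)) y) = 0 := by
            rw [← End.mul_apply, ← pow_succ']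
            exact hy
          rw [LinearMap.sub_apply, End.one_apply, sub_eq_zero] at h3
          exact h3
        rw [show i + 1 + (j + 1) = (i + (j + 1)) + 1 by ring, pow_succ, End.mul_apply, e1, map_add,
          h1, show i + (j + 1) = i + 1 + j by ring, h2, hBy, ← End.mul_apply, ← pow_succ,
          ← End.mul_apply, ← pow_succ, ← add_smul]
        congr 1
        have h4 := Nat.choose_succ_succ (i + 1 + j) i
        rw [show i + 1 + j + 1 = (i + 1 + j).succ by rfl, h4]
        push_cast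
        rfl

lemma binom_succ {A : End K V} {B : End K V'} {C : End K V''} {m : V →ₗ[K] V' →ₗ[K] V''}
    (h : ∀ x y, C (m x y) = m (A x) (B y)) {i j : ℕ} {x : V} {y : V'}
    (hx : ((A - 1) ^ (i + 1)) x = 0) (hy : ((B - 1) ^ (j + 1)) y = 0) :
    ((C - 1) ^ (i + j + 1)) (m x y) = 0 := by
  rw [pow_succ', End.mul_apply, binom h _ i j rfl x y hx hy, map_smul, LinearMap.sub_apply,
    End.one_apply, h]
  have h1 : A (((A - 1) ^ i) x) = ((A - 1) ^ i) x := by
    rw [pow_succ', End.mul_apply, LinearMap.sub_apply, End.one_apply, sub_eq_zero] at hx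
    exact hx
  have h2 : B (((B - 1) ^ j) y) = ((B - 1) ^ j) y := by
    rw [pow_succ', End.mul_apply, LinearMap.sub_apply, End.one_apply, sub_eq_zero] at hy
    exact hy
  rw [h1, h2, sub_self, smul_zero]

lemma pow_mul_intertwine {A : End K V} {B : End K V'} {C : End K V''}
    {m : V →ₗ[K] V' →ₗ[K] V''} {a b c : ℕ} (h : ∀ x y, (C ^ c) (m x y) = m ((A ^ a) x) ((B ^ b) y))
    (k : ℕ) (x : V) (y : V') : (C ^ (c * k)) (m x y) = m ((A ^ (a * k)) x) ((B ^ (b * k)) y) := by
  induction k generalizing x y with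
  | zero => simp
  | succ k ih =>
    rw [mul_add, mul_one, pow_add, End.mul_apply, h, ih, mul_add, mul_one, pow_add, End.mul_apply,
      mul_add, mul_one, pow_add, End.mul_apply]

/-- The exact order of a product. -/
lemma uni_mul [CharZero K] {A : End K V} {B : End K V'} {C : End K V''}
    {m : V →ₗ[K] V' →ₗ[K] V''} {a b c : ℕ} (ha : 0 < a) (hb : 0 < b) (hc : 0 < c)
    (h : ∀ x y, (C ^ c) (m x y) = m ((A ^ a) x) ((B ^ b) y))
    (hm : ∀ x y, m x y = 0 → x = 0 ∨ y = 0) {i j : ℕ} {x : V} {y : V'}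
    (hx : x ∈ uni A (i + 1)) (hx' : x ∉ uni A i) (hy : y ∈ uni B (j + 1)) (hy' : y ∉ uni B j) :
    m x y ∈ uni C (i + j + 1) ∧ m x y ∉ uni C (i + j) := by
  obtain ⟨k, hk, hx⟩ := hx
  obtain ⟨l, hl, hy⟩ := hy
  have hx1 : ∀ t, ((A ^ (a * (k * l * t)) - 1) ^ (i + 1)) x = 0 := fun t => by
    rw [show a * (k * l * t) = k * (a * l * t) by ring]
    exact sub_one_pow_dvd A _ _ _ hx
  have hy1 : ∀ t, ((B ^ (b * (k * l * t)) - 1) ^ (j + 1)) y = 0 := fun t => by
    rw [show b * (k * l * t) = l * (b * k * t) by ring]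
    exact sub_one_pow_dvd B _ _ _ hy
  have hkl : 0 < k * l := Nat.mul_pos hk hl
  refine ⟨⟨c * (k * l * 1), by positivity, ?_⟩, ?_⟩
  · exact binom_succ (pow_mul_intertwine h (k * l * 1)) (hx1 1) (hy1 1)
  · rintro ⟨t, ht, h0⟩
    have h1 : ((C ^ (c * (k * l * t)) - 1) ^ (i + j)) (m x y) = 0 := by
      rw [show c * (k * l * t) = t * (c * k * l) by ring]
      exact sub_one_pow_dvd C _ _ _ h0
    rw [binom (pow_mul_intertwine h (k * l * t)) _ i j rfl x y (hx1 t) (hy1 t)] at h1
    have h2 : (((i + j).choose i : ℕ) : K) ≠ 0 := by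
      rw [Nat.cast_ne_zero]
      exact (Nat.choose_pos (Nat.le_add_right i j)).ne'
    rcases smul_eq_zero.1 h1 with h3 | h3
    · exact h2 h3
    rcases hm _ _ h3 with h4 | h4
    · exact hx' ⟨_, Nat.mul_pos ha (Nat.mul_pos hkl ht), h4⟩
    · exact hy' ⟨_, Nat.mul_pos hb (Nat.mul_pos hkl ht), h4⟩

end Pool.Agent.NH34.ZO
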