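import Pool.Agent.NH34.ZO.Grading
import Pool.Agent.NH34.ZO.Uni

/-!
# Germs of automorphisms of the cohomology which fix the classes of a system
-/

open CategoryTheory AlgebraicGeometry

universe u v

namespace Pool.Agent.NH34.ZO

open Module Module.End
open Pool.Agent.H914 Pool.Agent.H914.VarClass Pool.Agent.H914.VarClass.Obj
  Pool.Agent.H914.WeilCohomology Pool.Agent.Y133.Half Pool.Agent.Y133.Half.Sys

variable {k : Type u} [Field k] {𝒱 : VarClass k} {ops : CycleOps 𝒱}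
  {W : WeilCohomology.{u, v} ops} {X : 𝒱.Obj}

/-- A germ of an automorphism of the cohomology of all varieties, which fixes the classes in `S`:
`A Z` plays the role of the power of exponent `w Z` of one automorphism. -/
structure Germ (S : Sys W) where
  A : ∀ Z : 𝒱.Obj, Module.End W.K (W.H Z)
  w : 𝒱.Obj → ℕ
  w_pos : ∀ Z, 0 < w Z
  inj : ∀ Z, Function.Injective (A Z)
  mul : ∀ Z a b, A Z (a * b) = A Z a * A Z b
  map : ∀ {Y Z : 𝒱.Obj} (f : Y ⟶ Z), ∃ M : ℕ, 0 < M ∧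
    ∀ b, (A Y ^ (M * w Z)) (W.map f b) = W.map f ((A Z ^ (M * w Y)) b)
  tr : ∀ Z a, W.tr Z (A Z a) = W.tr Z a
  fix : ∀ Z, ∀ s ∈ S.C Z, ∃ M : ℕ, 0 < M ∧ (A Z ^ M) s = s

namespace Germ

variable {S T : Sys W} (G : Germ S) {Z Q Y : 𝒱.Obj}

lemma pow_mul (n : ℕ) (a b : W.H Z) : (G.A Z ^ n) (a * b) = (G.A Z ^ n) a * (G.A Z ^ n) b := by
  induction n generalizing a b with
  | zero => rfl
  | succ n ih => rw [pow_succ, End.mul_apply, G.mul, ih]; rfl

lemma pow_tr (n : ℕ) (a : W.H Z) : W.tr Z ((G.A Z ^ n) a) = W.tr Z a := by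
  induction n generalizing a with
  | zero => rfl
  | succ n ih => rw [pow_succ, End.mul_apply, ih, G.tr]

lemma pow_inj (n : ℕ) : Function.Injective (G.A Z ^ n : Module.End W.K (W.H Z)) := by
  induction n with
  | zero => exact fun a b h => h
  | succ n ih =>
    intro a b h
    rw [pow_succ, End.mul_apply, End.mul_apply] at h
    exact G.inj Z (ih h)

lemma pow_surj (n : ℕ) : Function.Surjective (G.A Z ^ n : Module.End W.K (W.H Z)) :=
  LinearMap.surjective_of_injective (G.pow_inj n)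

/-- The bilinear multiplication. -/
noncomputable def mulB (W : WeilCohomology.{u, v} ops) (Z : 𝒱.Obj) :
    W.H Z →ₗ[W.K] W.H Z →ₗ[W.K] W.H Z := LinearMap.mul W.K (W.H Z)

/-- The external product as a bilinear map. -/
noncomputable def xpB (W : WeilCohomology.{u, v} ops) (Z Q : 𝒱.Obj) :
    W.H Z →ₗ[W.K] W.H Q →ₗ[W.K] W.H (Z.prod Q) :=
  (LinearMap.mul W.K (W.H (Z.prod Q))).compl₁₂ (W.map (fst Z Q)).toLinearMap
    (W.map (snd Z Q)).toLinearMap

lemma xpB_apply (x : W.H Z) (y : W.H Q) : xpB W Z Q x y = xp W x y := rfl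

/-- Push-forward. -/
lemma push (f : Z ⟶ Y) : ∃ M : ℕ, 0 < M ∧
    ∀ a, (G.A Y ^ (M * G.w Z)) (W.push f a) = W.push f ((G.A Z ^ (M * G.w Y)) a) := by
  obtain ⟨M, hM, h⟩ := G.map f
  refine ⟨M, hM, fun a => ?_⟩
  apply W.tr_ext
  intro b
  obtain ⟨b, rfl⟩ := G.pow_surj (M * G.w Z) b
  rw [← G.pow_mul, G.pow_tr, W.tr_push, W.tr_push, ← h, ← G.pow_mul, G.pow_tr]

/-- The operators of `S` commute with some power. -/
lemma op {a : W.H Z →ₗ[W.K] W.H Q} (ha : a ∈ S.Op Z Q) : ∃ m n : ℕ, 0 < m ∧ 0 < n ∧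
    ∀ x, (G.A Q ^ m) (a x) = a ((G.A Z ^ n) x) := by
  obtain ⟨c, hc, rfl⟩ := mem_Op.1 ha
  obtain ⟨M₁, h₁, e₁⟩ := G.push (snd Z Q)
  obtain ⟨M₂, h₂, e₂⟩ := G.map (fst Z Q)
  obtain ⟨M₃, h₃, e₃⟩ := G.fix _ c hc
  have e₃' : ∀ t : ℕ, (G.A (Z.prod Q) ^ (M₃ * t)) c = c := by
    intro t
    induction t with
    | zero => rfl
    | succ t ih => rw [mul_add, mul_one, pow_add, End.mul_apply, e₃, ih]
  set P := Z.prod Q with hP
  refine ⟨(M₁ * G.w P) * (M₂ * G.w Z * M₃), M₂ * G.w P * (M₁ * G.w Q * M₃), ?_, ?_, fun x => ?_⟩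
  · have := G.w_pos P; have := G.w_pos Z; positivity
  · have := G.w_pos P; have := G.w_pos Q; positivity
  rw [corr_apply, pow_intertwine e₁, corr_apply]
  congr 1
  rw [G.pow_mul]
  congr 1
  · rw [show M₁ * G.w Q * (M₂ * G.w Z * M₃) = M₃ * (M₁ * G.w Q * (M₂ * G.w Z)) by ring]
    exact e₃' _
  · have h5 : ∀ x, (G.A P ^ (M₂ * G.w Z)) ((W.map (fst Z Q)).toLinearMap x) =
        (W.map (fst Z Q)).toLinearMap ((G.A Z ^ (M₂ * G.w P)) x) := e₂
    have h6 := pow_intertwine h5 (M₁ * G.w Q * M₃) x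
    rw [show M₂ * G.w Z * (M₁ * G.w Q * M₃) = M₁ * G.w Q * (M₂ * G.w Z * M₃) by ring] at h6
    exact h6

section Grad

variable [IsAlgClosed W.K] (v : Val W.K)

/-- The part of degree `r`. -/
noncomputable def part (Z : 𝒱.Obj) (r : ℚ) : Submodule W.K (W.H Z) :=
  ⨆ μ, ⨆ (_ : v.v μ = r * G.w Z), (G.A Z).maxGenEigenspace μ

lemma part_ind {r : ℚ} {q : W.H Z → Prop}
    (h : ∀ μ, v.v μ = r * G.w Z → ∀ a ∈ (G.A Z).maxGenEigenspace μ, q a) (h0 : q 0)
    (hadd : ∀ x y, q x → q y → q (x + y)) {x : W.H Z} (hx : x ∈ G.part v Z r) : q x := by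
  unfold part at hx
  induction hx using Submodule.iSup_induction' with
  | mem r x hx =>
    induction hx using Submodule.iSup_induction' with
    | mem hr x hx => exact h r hr x hx
    | zero => exact h0
    | add x y _ _ hx hy => exact hadd x y hx hy
  | zero => exact h0
  | add x y _ _ hx hy => exact hadd x y hx hy

lemma ne_zero_of_gen {μ : W.K} {a : W.H Z} (ha : a ∈ (G.A Z).maxGenEigenspace μ) (h0 : a ≠ 0) :
    μ ≠ 0 := by
  rintro rfl
  exact h0 (gen_zero_of_inj (G.inj Z) ha)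

lemma mem_part_of_pow {n : ℕ} (hn : 0 < n) {κ : W.K} {r : ℚ} {x : W.H Z}
    (hx : x ∈ (G.A Z ^ n).maxGenEigenspace κ) (hκ : κ ≠ 0) (hv : v.v κ = n * (r * G.w Z)) :
    x ∈ G.part v Z r := by
  have h1 : (⨆ μ, ⨆ (_ : μ ^ n = κ), (G.A Z).maxGenEigenspace μ) ≤ G.part v Z r := by
    refine iSup₂_le fun μ hμ => ?_
    refine le_iSup₂_of_le μ ?_ le_rfl
    have hμ0 : μ ≠ 0 := by
      rintro rfl
      rw [zero_pow hn.ne'] at hμ
      exact hκ hμ.symm
    have h2 := v.pow hμ0 n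
    rw [hμ, hv] at h2
    have h3 : (n : ℚ) ≠ 0 := by exact_mod_cast hn.ne'
    exact (mul_left_cancel₀ h3 h2).symm
  exact h1 (gen_of_pow hx)

/-- The grading defined by a germ. -/
noncomputable def grading : Grading S where
  E Z r := G.part v Z r
  indep Z := by
    have hw : (G.w Z : ℚ) ≠ 0 := by exact_mod_cast (G.w_pos Z).ne'
    intro r
    have h1 := (independent_maxGenEigenspace (G.A Z)).disjoint_biSup_biSup
      (s := {μ | v.v μ = r * G.w Z}) (t := {μ | v.v μ ≠ r * G.w Z}) (by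
        rw [Set.disjoint_left]
        intro μ h h'
        exact h' h)
    refine h1.mono le_rfl (iSup₂_le fun s hs => iSup₂_le fun μ hμ => ?_)
    refine le_iSup₂_of_le (f := fun μ (_ : μ ∈ {μ | v.v μ ≠ r * G.w Z}) =>
      (G.A Z).maxGenEigenspace μ) μ ?_ le_rfl
    intro h
    apply hs
    rw [hμ] at h
    exact mul_right_cancel₀ hw h
  top Z := by
    have hw : (G.w Z : ℚ) ≠ 0 := by exact_mod_cast (G.w_pos Z).ne'
    rw [eq_top_iff, ← iSup_maxGenEigenspace_eq_top (G.A Z)]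
    refine iSup_le fun μ => le_iSup_of_le (v.v μ / G.w Z) ?_
    exact le_iSup₂_of_le (f := fun μ' (_ : v.v μ' = v.v μ / G.w Z * G.w Z) =>
      (G.A Z).maxGenEigenspace μ') μ (div_mul_cancel₀ _ hw).symm le_rfl
  mul {Z r s a b} ha hb := by
    refine G.part_ind v (q := fun a => a * b ∈ G.part v Z (r + s)) ?_ ?_ ?_ ha
    · intro μ hμ a ha
      refine G.part_ind v (q := fun b => a * b ∈ G.part v Z (r + s)) ?_ ?_ ?_ hb
      · intro ν hν b hb
        by_cases ha0 : a = 0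
        · rw [ha0, zero_mul]; exact Submodule.zero_mem _
        by_cases hb0 : b = 0
        · rw [hb0, mul_zero]; exact Submodule.zero_mem _
        refine (le_iSup₂_of_le (f := fun μ (_ : v.v μ = (r + s) * G.w Z) =>
          (G.A Z).maxGenEigenspace μ) (μ * ν) ?_ le_rfl)
          (gen_mul (m := mulB W Z) (A := G.A Z) (B := G.A Z) (C := G.A Z) (G.mul Z) ha hb)
        rw [v.map_mul _ _ (G.ne_zero_of_gen ha ha0) (G.ne_zero_of_gen hb hb0), hμ, hν]
        ring
      · rw [mul_zero]; exact Submodule.zero_mem _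
      · intro x y hx hy
        rw [mul_add]; exact Submodule.add_mem _ hx hy
    · rw [zero_mul]; exact Submodule.zero_mem _
    · intro x y hx hy
      rw [add_mul]; exact Submodule.add_mem _ hx hy
  map {Y Z} f r b hb := by
    refine G.part_ind v (q := fun b => W.map f b ∈ G.part v Y r) ?_ ?_ ?_ hb
    · intro μ hμ b hb
      by_cases hb0 : b = 0
      · rw [hb0, map_zero]; exact Submodule.zero_mem _
      have hμ0 := G.ne_zero_of_gen hb hb0
      obtain ⟨M, hM, h⟩ := G.map f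
      have h1 : (W.map f).toLinearMap b ∈ (G.A Y ^ (M * G.w Z)).maxGenEigenspace
          (μ ^ (M * G.w Y)) :=
        gen_map (A := G.A Z ^ (M * G.w Y)) (B := G.A Y ^ (M * G.w Z))
          (f := (W.map f).toLinearMap) h (gen_pow hb _)
      refine G.mem_part_of_pow v (Nat.mul_pos hM (G.w_pos Z)) h1 (pow_ne_zero _ hμ0) ?_
      rw [v.pow hμ0, hμ]
      push_cast
      ring
    · rw [map_zero]; exact Submodule.zero_mem _
    · intro x y hx hy
      rw [map_add]; exact Submodule.add_mem _ hx hy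
  tr {Z r a} hr ha := by
    refine G.part_ind v (q := fun a => W.tr Z a = 0) ?_ (map_zero _) ?_ ha
    · intro μ hμ a ha
      obtain ⟨n, hn⟩ := mem_gen.1 ha
      have hμ1 : (1 : W.K) - μ ≠ 0 := by
        intro h
        have h1 : μ = 1 := (sub_eq_zero.1 h).symm
        rw [h1, v.one] at hμ
        have hw : (G.w Z : ℚ) ≠ 0 := by exact_mod_cast (G.w_pos Z).ne'
        exact hr ((mul_eq_zero.1 hμ.symm).resolve_right hw)
      have key : ∀ (n : ℕ) (y : W.H Z),
          W.tr Z (((G.A Z - μ • (1 : Module.End W.K (W.H Z))) ^ n) y) =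
            (1 - μ) ^ n * W.tr Z y := by
        intro n
        induction n with
        | zero => intro y; rw [pow_zero, pow_zero, one_mul]; rfl
        | succ n ih =>
          intro y
          rw [pow_succ, End.mul_apply, ih, LinearMap.sub_apply, LinearMap.smul_apply,
            End.one_apply, map_sub, G.tr, map_smul, smul_eq_mul]
          ring
      have h1 := key n a
      rw [hn, map_zero] at h1
      exact (mul_eq_zero.1 h1.symm).resolve_left (pow_ne_zero _ hμ1)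
    · intro x y hx hy
      rw [map_add, hx, hy, add_zero]
  fix {Z s} hs := by
    obtain ⟨M, hM, h⟩ := G.fix Z s hs
    refine G.mem_part_of_pow v hM (κ := 1) (mem_gen.2 ⟨1, ?_⟩) one_ne_zero ?_
    · rw [pow_one, one_smul, LinearMap.sub_apply, End.one_apply, h, sub_self]
    · rw [v.one, zero_mul, mul_zero]

/-- Some power of the germ is unipotent on the classes of `T`. -/
theorem exists_uni (hST : ∀ X, S.C X ≤ T.C X) {X : 𝒱.Obj}
    (h : ¬ ∀ N : ℕ, ∃ n₀ : ℕ, ∀ n ≥ n₀, N * S.a (pw X n) ≤ finrank W.K (T.C (pw X n)))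
    {q : ℕ} {x : W.H (pw X q)} (hx : x ∈ T.C (pw X q)) : ∃ n, x ∈ uni (G.A (pw X q)) n := by
  classical
  obtain ⟨f, hf, hfx⟩ := (Submodule.mem_iSup_iff_exists_finsupp
    ((G.A (pw X q)).maxGenEigenspace) x).1 (by rw [iSup_maxGenEigenspace_eq_top]; trivial)
  have hroot : ∀ μ ∈ f.support, ∃ n : ℕ, 0 < n ∧ μ ^ n = 1 := by
    intro μ hμ
    by_contra hcon
    push Not at hcon
    have hfμ : f μ ≠ 0 := Finsupp.mem_support_iff.1 hμ
    have hμ0 := G.ne_zero_of_gen (hf μ) hfμ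
    obtain ⟨v, hv⟩ := Val.exists_ne_zero hμ0 hcon
    have h1 : x ∈ G.part v (pw X q) 0 := (G.grading v).mem_zero hST h hx
    apply hfμ
    have h2 : f μ ∈ ⨆ j, ⨆ (_ : j ≠ μ), (G.A (pw X q)).maxGenEigenspace j := by
      have e : f μ = x - ∑ i ∈ f.support.erase μ, f i := by
        rw [← hfx, Finsupp.sum, ← Finset.add_sum_erase _ _ hμ, add_sub_cancel_right]
      rw [e]
      refine Submodule.sub_mem _ ?_ (Submodule.sum_mem _ fun i hi => ?_)
      · refine (iSup₂_le fun j hj => ?_ : G.part v (pw X q) 0 ≤ _) h1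
        refine le_iSup₂_of_le (f := fun j (_ : j ≠ μ) => (G.A (pw X q)).maxGenEigenspace j) j ?_ le_rfl
        rintro rfl
        rw [zero_mul] at hj
        exact hv hj
      · exact (le_iSup₂_of_le (f := fun j (_ : j ≠ μ) => (G.A (pw X q)).maxGenEigenspace j) i
          (Finset.mem_erase.1 hi).1 le_rfl) (hf i)
    exact Submodule.disjoint_def.1 (independent_maxGenEigenspace (G.A (pw X q)) μ) _ (hf μ) h2
  have hmem : ∀ μ ∈ f.support, ∃ n, f μ ∈ uni (G.A (pw X q)) n := by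
    intro μ hμ
    obtain ⟨n, hn, h1⟩ := hroot μ hμ
    have h2 := gen_pow (hf μ) n
    rw [h1] at h2
    obtain ⟨m, hm⟩ := mem_gen.1 h2
    rw [one_smul] at hm
    exact ⟨m, n, hn, hm⟩
  choose! n hn using hmem
  refine ⟨f.support.sup n, ?_⟩
  rw [← hfx]
  exact Submodule.sum_mem _ fun μ hμ => uni_mono (Finset.le_sup hμ) (hn μ hμ)

end Grad

/-- The degree function defined by the unipotent part. -/
def uniDeg (d : ℕ) (hd : 0 < d) : DegFun S where
  F Z n := uni (G.A Z) (n * d + 1)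
  Deg Z n x := x ∈ uni (G.A Z) (n * d + 1) ∧ x ∉ uni (G.A Z) (n * d)
  mono Z n := uni_mono (by nlinarith)
  stable Z n a ha x hx := by
    obtain ⟨m, l, hm, _, h⟩ := G.op ha
    exact uni_map hm h hx
  mem hx := hx.1
  notMem {Z n x} hx h' := hx.2 (uni_mono (by nlinarith) h')
  xp {Z Q m n x y} hx hy := by
    obtain ⟨M₁, h₁, e₁⟩ := G.map (fst Z Q)
    obtain ⟨M₂, h₂, e₂⟩ := G.map (snd Z Q)
    set P := Z.prod Q with hP
    have hwP := G.w_pos P
    have hwZ := G.w_pos Z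
    have hwQ := G.w_pos Q
    have key : ∀ x y, (G.A P ^ (M₁ * G.w Z * (M₂ * G.w Q))) (xpB W Z Q x y) =
        xpB W Z Q ((G.A Z ^ (M₁ * G.w P * (M₂ * G.w Q))) x)
          ((G.A Q ^ (M₂ * G.w P * (M₁ * G.w Z))) y) := by
      intro x y
      have h1 : (G.A P ^ (M₁ * G.w Z * (M₂ * G.w Q))) (W.map (fst Z Q) x) =
          W.map (fst Z Q) ((G.A Z ^ (M₁ * G.w P * (M₂ * G.w Q))) x) :=
        pow_intertwine (f := (W.map (fst Z Q)).toLinearMap) e₁ _ x
      have h2 : (G.A P ^ (M₂ * G.w Q * (M₁ * G.w Z))) (W.map (snd Z Q) y) =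
          W.map (snd Z Q) ((G.A Q ^ (M₂ * G.w P * (M₁ * G.w Z))) y) :=
        pow_intertwine (f := (W.map (snd Z Q)).toLinearMap) e₂ _ y
      rw [xpB_apply, xpB_apply, xp_def, xp_def, G.pow_mul, h1]
      congr 1
      rw [← h2, mul_comm (M₁ * G.w Z)]
    have hm0 : ∀ x y, xpB W Z Q x y = 0 → x = 0 ∨ y = 0 := by
      intro x y hxy
      by_cases hx0 : x = 0
      · exact Or.inl hx0
      · exact Or.inr (xp_eq_zero_left hx0 hxy)
    have h3 := uni_mul (a := M₁ * G.w P * (M₂ * G.w Q)) (b := M₂ * G.w P * (M₁ * G.w Z))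
      (c := M₁ * G.w Z * (M₂ * G.w Q)) (by positivity) (by positivity) (by positivity) key hm0
      hx.1 hx.2 hy.1 hy.2
    rw [← add_mul] at h3
    exact h3
  zero {Z l} hl h0 := by
    obtain ⟨M, hM, h⟩ := G.fix Z l hl
    refine ⟨⟨M, hM, ?_⟩, ?_⟩
    · rw [zero_mul, zero_add, pow_one, LinearMap.sub_apply, End.one_apply, h, sub_self]
    · rw [zero_mul, uni_zero]
      exact h0

/-- **Germs of automorphisms.** If the rank of `S` is not negligible then every class of `T` is fixed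
by a power of the germ. -/
theorem main [IsAlgClosed W.K] (hST : ∀ X, S.C X ≤ T.C X) {X : 𝒱.Obj}
    (h : ¬ ∀ N : ℕ, ∃ n₀ : ℕ, ∀ n ≥ n₀, N * S.a (pw X n) ≤ finrank W.K (T.C (pw X n)))
    {q : ℕ} {x : W.H (pw X q)} (hx : x ∈ T.C (pw X q)) :
    ∃ n : ℕ, 0 < n ∧ (G.A (pw X q) ^ n) x = x := by
  classical
  have hex := G.exists_uni hST h hx
  have h1 := Nat.find_spec hex
  rcases hd : Nat.find hex with _ | _ | d
  · rw [hd, uni_zero] at h1
    exact ⟨1, one_pos, by rw [h1, map_zero]⟩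
  · rw [hd] at h1
    obtain ⟨n, hn, h2⟩ := h1
    rw [zero_add, pow_one, LinearMap.sub_apply, End.one_apply, sub_eq_zero] at h2
    exact ⟨n, hn, h2⟩
  · exfalso
    have h2 : x ∉ uni (G.A (pw X q)) (d + 1) := Nat.find_min hex (by omega)
    rw [hd] at h1
    refine h fun N => (G.uniDeg (d + 1) (by omega)).negligible hST X hx ?_ N
    change x ∈ uni _ (1 * (d + 1) + 1) ∧ x ∉ uni _ (1 * (d + 1))
    rw [one_mul]
    exact ⟨h1, h2⟩

end Germ

end Pool.Agent.NH34.ZO
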