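import Pool.Agent.NH34.ZO.Chain

/-!
# Gradings of the cohomology which are compatible with a system of classes
-/

open CategoryTheory AlgebraicGeometry

universe u v

namespace Pool.Agent.NH34.ZO

open Module
open Pool.Agent.H914 Pool.Agent.H914.VarClass Pool.Agent.H914.VarClass.Obj
  Pool.Agent.H914.WeilCohomology Pool.Agent.Y133.Half Pool.Agent.Y133.Half.Sys

variable {k : Type u} [Field k] {𝒱 : VarClass k} {ops : CycleOps 𝒱}
  {W : WeilCohomology.{u, v} ops} {X : 𝒱.Obj}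

/-- A grading of the cohomology of all varieties by rational numbers, compatible with products,
pull-backs and traces, such that the classes in `S` have degree zero. -/
structure Grading (S : Sys W) where
  E : ∀ Z : 𝒱.Obj, ℚ → Submodule W.K (W.H Z)
  indep : ∀ Z, iSupIndep (E Z)
  top : ∀ Z, ⨆ r, E Z r = ⊤
  mul : ∀ {Z r s} {a b : W.H Z}, a ∈ E Z r → b ∈ E Z s → a * b ∈ E Z (r + s)
  map : ∀ {Y Z} (f : Y ⟶ Z) {r b}, b ∈ E Z r → W.map f b ∈ E Y r
  tr : ∀ {Z r a}, r ≠ 0 → a ∈ E Z r → W.tr Z a = 0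
  fix : ∀ {Z s}, s ∈ S.C Z → s ∈ E Z 0

namespace Grading

variable {S T : Sys W} (G : Grading S)

/-- The sum of the parts of degrees with the property `p`. -/
def on (Z : 𝒱.Obj) (p : ℚ → Prop) : Submodule W.K (W.H Z) := ⨆ r, ⨆ (_ : p r), G.E Z r

variable {Z Q Y : 𝒱.Obj} {p p' : ℚ → Prop} {r s t : ℚ}

lemma le_on (h : p r) : G.E Z r ≤ G.on Z p := le_iSup₂_of_le r h le_rfl

lemma on_mono (h : ∀ r, p r → p' r) : G.on Z p ≤ G.on Z p' :=
  iSup₂_le fun _ hr => G.le_on (h _ hr)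

lemma on_ind {q : W.H Z → Prop} (h : ∀ r, p r → ∀ a ∈ G.E Z r, q a) (h0 : q 0)
    (hadd : ∀ x y, q x → q y → q (x + y)) {x : W.H Z} (hx : x ∈ G.on Z p) : q x := by
  unfold on at hx
  induction hx using Submodule.iSup_induction' with
  | mem r x hx =>
    induction hx using Submodule.iSup_induction' with
    | mem hr x hx => exact h r hr x hx
    | zero => exact h0
    | add x y _ _ hx hy => exact hadd x y hx hy
  | zero => exact h0
  | add x y _ _ hx hy => exact hadd x y hx hy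

lemma disj (h : ¬ p r) {x : W.H Z} (hx : x ∈ G.E Z r) (hx' : x ∈ G.on Z p) : x = 0 := by
  refine Submodule.disjoint_def.1 (G.indep Z r) x hx ?_
  have h1 : G.on Z p ≤ ⨆ j, ⨆ (_ : j ≠ r), G.E Z j :=
    G.on_mono (p' := fun j => j ≠ r) fun j hj hjr => h (hjr ▸ hj)
  exact h1 hx'

lemma mem_top (x : W.H Z) : x ∈ G.on Z fun _ => True := by
  have h1 : (⊤ : Submodule W.K (W.H Z)) ≤ G.on Z fun _ => True := by
    rw [← G.top Z]
    exact iSup_le fun r => G.le_on trivial
  exact h1 trivial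

lemma tr_on (h : ¬ p 0) {x : W.H Z} (hx : x ∈ G.on Z p) : W.tr Z x = 0 := by
  refine G.on_ind (q := fun x => W.tr Z x = 0) ?_ (map_zero _) ?_ hx
  · intro r hr a ha
    exact G.tr (fun h0 => h (h0 ▸ hr)) ha
  · intro x y hx hy
    rw [map_add, hx, hy, add_zero]

lemma mul_on {x y : W.H Z} (hx : x ∈ G.on Z p) (hy : y ∈ G.E Z t) :
    x * y ∈ G.on Z fun r => p (r - t) := by
  refine G.on_ind (q := fun x => x * y ∈ G.on Z fun r => p (r - t)) ?_ ?_ ?_ hx
  · intro r hr a ha
    exact G.le_on (p := fun r => p (r - t)) (by simpa using hr) (G.mul ha hy)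
  · rw [zero_mul]; exact Submodule.zero_mem _
  · intro x x' hx hx'
    rw [add_mul]; exact Submodule.add_mem _ hx hx'

lemma split (x : W.H Z) (r : ℚ) : ∃ a ∈ G.E Z r, ∃ b ∈ G.on Z (fun s => s ≠ r), a + b = x := by
  refine G.on_ind (q := fun x => ∃ a ∈ G.E Z r, ∃ b ∈ G.on Z (fun s => s ≠ r), a + b = x)
    ?_ ?_ ?_ (G.mem_top x)
  · intro s _ a ha
    by_cases h : s = r
    · exact ⟨a, h ▸ ha, 0, Submodule.zero_mem _, add_zero _⟩
    · exact ⟨0, Submodule.zero_mem _, a, G.le_on (p := fun s => s ≠ r) h ha, zero_add _⟩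
  · exact ⟨0, Submodule.zero_mem _, 0, Submodule.zero_mem _, add_zero _⟩
  · rintro _ _ ⟨a, ha, b, hb, rfl⟩ ⟨a', ha', b', hb', rfl⟩
    exact ⟨a + a', Submodule.add_mem _ ha ha', b + b', Submodule.add_mem _ hb hb', by abel⟩

lemma push (f : Z ⟶ Y) {a : W.H Z} (ha : a ∈ G.E Z r) : W.push f a ∈ G.E Y r := by
  obtain ⟨c, hc, d, hd, hcd⟩ := G.split (W.push f a) r
  have hd0 : d = 0 := by
    apply W.tr_ext
    intro b
    rw [zero_mul, map_zero]
    refine G.on_ind (q := fun b => W.tr Y (d * b) = 0) ?_ ?_ ?_ (G.mem_top b)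
    · intro t _ b hb
      by_cases ht : t = -r
      · have h1 : d * b ∈ G.on Y fun s => s - t ≠ r := G.mul_on (p := fun s => s ≠ r) hd hb
        refine G.tr_on ?_ h1
        rw [ht]
        simp
      · have h1 : W.tr Y (W.push f a * b) = 0 := by
          rw [W.tr_push]
          exact G.tr (fun h => ht (by linarith)) (G.mul ha (G.map f hb))
        have h2 : W.tr Y (c * b) = 0 := G.tr (fun h => ht (by linarith)) (G.mul hc hb)
        rw [← hcd, add_mul, map_add, h2, zero_add] at h1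
        exact h1
    · rw [mul_zero, map_zero]
    · intro x y hx hy
      rw [mul_add, map_add, hx, hy, add_zero]
  rw [← hcd, hd0, add_zero]
  exact hc

lemma op {a : W.H Z →ₗ[W.K] W.H Q} (ha : a ∈ S.Op Z Q) {x : W.H Z} (hx : x ∈ G.E Z r) :
    a x ∈ G.E Q r := by
  obtain ⟨c, hc, rfl⟩ := mem_Op.1 ha
  rw [corr_apply]
  have h1 := G.mul (G.fix hc) (G.map (fst Z Q) hx)
  rw [zero_add] at h1
  exact G.push _ h1

lemma op_on {a : W.H Z →ₗ[W.K] W.H Q} (ha : a ∈ S.Op Z Q) {x : W.H Z} (hx : x ∈ G.on Z p) :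
    a x ∈ G.on Q p := by
  refine G.on_ind (q := fun x => a x ∈ G.on Q p) ?_ ?_ ?_ hx
  · intro r hr x hx
    exact G.le_on hr (G.op ha hx)
  · rw [map_zero]; exact Submodule.zero_mem _
  · intro x y hx hy
    rw [map_add]; exact Submodule.add_mem _ hx hy

lemma xp_mem {x : W.H Z} {y : W.H Q} (hx : x ∈ G.E Z r) (hy : y ∈ G.E Q s) :
    xp W x y ∈ G.E (Z.prod Q) (r + s) := G.mul (G.map _ hx) (G.map _ hy)

lemma xp_on {q : ℚ → Prop} (h : ∀ r s, p r → p' s → q (r + s)) {x : W.H Z} {y : W.H Q}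
    (hx : x ∈ G.on Z p) (hy : y ∈ G.on Q p') : xp W x y ∈ G.on (Z.prod Q) q := by
  refine G.on_ind (q := fun x => xp W x y ∈ G.on (Z.prod Q) q) ?_ ?_ ?_ hx
  · intro r hr x hx
    refine G.on_ind (q := fun y => xp W x y ∈ G.on (Z.prod Q) q) ?_ ?_ ?_ hy
    · intro s hs y hy
      exact G.le_on (h r s hr hs) (G.xp_mem hx hy)
    · rw [xp_def, map_zero, mul_zero]; exact Submodule.zero_mem _
    · intro y y' hy hy'
      rw [xp_def, map_add, mul_add]; exact Submodule.add_mem _ hy hy'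
  · rw [xp_def, map_zero, zero_mul]; exact Submodule.zero_mem _
  · intro x x' hx hx'
    rw [xp_add_left]; exact Submodule.add_mem _ hx hx'

/-- The class `x` has the exact degree `r`: it is a sum of classes of degrees at most `r`, but not of
classes of degrees less than `r`. -/
def Ex (Z : 𝒱.Obj) (r : ℚ) (x : W.H Z) : Prop :=
  x ∈ G.on Z (fun s => s ≤ r) ∧ x ∉ G.on Z (fun s => s < r)

lemma split_le {x : W.H Z} (hx : x ∈ G.on Z (fun s => s ≤ r)) :
    ∃ a ∈ G.E Z r, ∃ b ∈ G.on Z (fun s => s < r), a + b = x := by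
  refine G.on_ind (q := fun x => ∃ a ∈ G.E Z r, ∃ b ∈ G.on Z (fun s => s < r), a + b = x)
    ?_ ?_ ?_ hx
  · intro s hs a ha
    rcases lt_or_eq_of_le hs with h | h
    · exact ⟨0, Submodule.zero_mem _, a, G.le_on (p := fun s => s < r) h ha, zero_add _⟩
    · exact ⟨a, h ▸ ha, 0, Submodule.zero_mem _, add_zero _⟩
  · exact ⟨0, Submodule.zero_mem _, 0, Submodule.zero_mem _, add_zero _⟩
  · rintro _ _ ⟨a, ha, b, hb, rfl⟩ ⟨a', ha', b', hb', rfl⟩
    exact ⟨a + a', Submodule.add_mem _ ha ha', b + b', Submodule.add_mem _ hb hb', by abel⟩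

lemma Ex.xp {G : Grading S} {x : W.H Z} {y : W.H Q} (hx : G.Ex Z r x) (hy : G.Ex Q s y) :
    G.Ex (Z.prod Q) (r + s) (Pool.Agent.Y133.Half.xp W x y) := by
  refine ⟨G.xp_on (p := fun t => t ≤ r) (p' := fun t => t ≤ s) (q := fun t => t ≤ r + s)
    (fun a b ha hb => add_le_add ha hb) hx.1 hy.1, ?_⟩
  obtain ⟨a, ha, b, hb, hab⟩ := G.split_le hx.1
  obtain ⟨c, hc, d, hd, hcd⟩ := G.split_le hy.1
  have ha0 : a ≠ 0 := by
    rintro rfl
    rw [zero_add] at hab
    exact hx.2 (hab ▸ hb)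
  have hc0 : c ≠ 0 := by
    rintro rfl
    rw [zero_add] at hcd
    exact hy.2 (hcd ▸ hd)
  intro h
  have h1 : Pool.Agent.Y133.Half.xp W a c ∈ G.on (Z.prod Q) fun t => t < r + s := by
    have e : Pool.Agent.Y133.Half.xp W a c = Pool.Agent.Y133.Half.xp W x y -
        (Pool.Agent.Y133.Half.xp W a d + Pool.Agent.Y133.Half.xp W b y) := by
      rw [← hab, ← hcd]
      simp only [xp_def, map_add, add_mul, mul_add]
      abel
    rw [e]
    refine Submodule.sub_mem _ h (Submodule.add_mem _ ?_ ?_)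
    · exact G.xp_on (p := fun t => t = r) (p' := fun t => t < s) (q := fun t => t < r + s)
        (fun u v hu hv => by rw [hu]; linarith) (G.le_on (p := fun t => t = r) rfl ha) hd
    · exact G.xp_on (p := fun t => t < r) (p' := fun t => t ≤ s) (q := fun t => t < r + s)
        (fun u v hu hv => add_lt_add_of_lt_of_le hu hv) hb hy.1
  exact hc0 (xp_eq_zero_left ha0 (G.disj (by simp) (G.xp_mem ha hc) h1))

lemma Ex.of_mem {G : Grading S} {x : W.H Z} (hx : x ∈ G.E Z r) (h0 : x ≠ 0) : G.Ex Z r x :=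
  ⟨G.le_on (p := fun s => s ≤ r) le_rfl hx, fun h => h0 (G.disj (by simp) hx h)⟩

/-- The degree function of a grading. -/
def degFun (r₀ : ℚ) (h : 0 < r₀) : DegFun S where
  F Z n := G.on Z fun s => s ≤ n * r₀
  Deg Z n x := G.Ex Z (n * r₀) x
  mono Z n := G.on_mono fun s hs => hs.trans (by push_cast; nlinarith)
  stable Z n a ha x hx := G.op_on ha hx
  mem hx := hx.1
  notMem {Z n x} hx h' := hx.2 (G.on_mono (fun s hs => lt_of_le_of_lt hs (by
    push_cast; nlinarith)) h')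
  xp {Z Q m n x y} hx hy := by
    have := hx.xp hy
    rwa [← add_mul, ← Nat.cast_add] at this
  zero {Z l} hl h0 := by
    have := Ex.of_mem (G.fix hl) h0
    simpa using this

/-- The opposite grading. -/
def neg : Grading S where
  E Z r := G.E Z (-r)
  indep Z := (G.indep Z).comp neg_injective
  top Z := by
    rw [← G.top Z]
    exact (Equiv.neg ℚ).iSup_comp (g := G.E Z)
  mul {Z r s a b} ha hb := by
    rw [neg_add]
    exact G.mul ha hb
  map f _ _ hb := G.map f hb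
  tr hr ha := G.tr (fun h => hr (neg_eq_zero.1 h)) ha
  fix hs := by
    rw [neg_zero]
    exact G.fix hs

lemma exists_ex {f : ℚ →₀ W.H Z} (hf : ∀ i, f i ∈ G.E Z i) {s : ℚ} (hs : f s ≠ 0) :
    ∃ r, s ≤ r ∧ G.Ex Z r (f.sum fun _ x => x) := by
  classical
  have hne : f.support.Nonempty := ⟨s, Finsupp.mem_support_iff.2 hs⟩
  set r := f.support.max' hne with hr
  have hrm : r ∈ f.support := Finset.max'_mem _ _
  refine ⟨r, Finset.le_max' _ _ (Finsupp.mem_support_iff.2 hs), ?_, fun h => ?_⟩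
  · exact Submodule.sum_mem _ fun i hi =>
      G.le_on (p := fun s => s ≤ r) (Finset.le_max' _ _ hi) (hf i)
  · have h1 : f r ∈ G.on Z fun s => s < r := by
      have e : f r = (f.sum fun _ x => x) - ∑ i ∈ f.support.erase r, f i := by
        rw [Finsupp.sum, ← Finset.add_sum_erase _ _ hrm, add_sub_cancel_right]
      rw [e]
      refine Submodule.sub_mem _ h (Submodule.sum_mem _ fun i hi => ?_)
      obtain ⟨hi1, hi2⟩ := Finset.mem_erase.1 hi
      exact G.le_on (p := fun s => s < r) (lt_of_le_of_ne (Finset.le_max' _ _ hi2) hi1) (hf i)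
    exact (Finsupp.mem_support_iff.1 hrm) (G.disj (by simp) (hf r) h1)

/-- **Gradings.** If the rank of `S` is not negligible then the classes of `T` have degree zero. -/
theorem mem_zero (hST : ∀ X, S.C X ≤ T.C X) {X : 𝒱.Obj}
    (h : ¬ ∀ N : ℕ, ∃ n₀ : ℕ, ∀ n ≥ n₀, N * S.a (pw X n) ≤ finrank W.K (T.C (pw X n)))
    {q : ℕ} {x : W.H (pw X q)} (hx : x ∈ T.C (pw X q)) : x ∈ G.E (pw X q) 0 := by
  classical
  by_contra h0
  obtain ⟨f, hf, hfx⟩ := (Submodule.mem_iSup_iff_exists_finsupp (G.E (pw X q)) x).1 (by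
    rw [G.top]; trivial)
  obtain ⟨s, hs0, hs⟩ : ∃ s, s ≠ 0 ∧ f s ≠ 0 := by
    by_contra hcon
    push Not at hcon
    apply h0
    rw [← hfx]
    refine Submodule.sum_mem _ fun i hi => ?_
    by_cases hi0 : i = 0
    · rw [hi0]; exact hf 0
    · exact absurd (hcon i hi0) (Finsupp.mem_support_iff.1 hi)
  rcases lt_or_gt_of_ne hs0 with hlt | hgt
  · obtain ⟨r, hr, hr'⟩ := G.neg.exists_ex (f := Finsupp.equivMapDomain (Equiv.neg ℚ) f)
      (s := -s) (fun i => by
        rw [Finsupp.equivMapDomain_apply]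
        exact hf _) (by
        rw [Finsupp.equivMapDomain_apply]
        simpa using hs)
    have hr0 : 0 < r := lt_of_lt_of_le (by linarith) hr
    have e : ((Finsupp.equivMapDomain (Equiv.neg ℚ) f).sum fun _ x => x) = x := by
      rw [← hfx]
      exact Finsupp.sum_equivMapDomain _ _ _
    rw [e] at hr'
    refine h fun N => (G.neg.degFun r hr0).negligible hST X hx ?_ N
    change G.neg.Ex _ _ x
    rw [Nat.cast_one, one_mul]
    exact hr'
  · obtain ⟨r, hr, hr'⟩ := G.exists_ex hf hs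
    rw [hfx] at hr'
    have hr0 : 0 < r := lt_of_lt_of_le hgt hr
    refine h fun N => (G.degFun r hr0).negligible hST X hx ?_ N
    change G.Ex _ _ x
    rw [Nat.cast_one, one_mul]
    exact hr'

end Grading

end Pool.Agent.NH34.ZO
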