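import Pool.Agent.NH34.Lin.CDefs
import Pool.Agent.NH34.ZO.Uni

/-!
# Continuous actions by elements of finite order
-/

namespace Pool.Agent.NH34.ZO

open Module Module.End
open Pool.Agent.NH34.Lin

section Matrix

variable {ℓ : ℕ} [hℓ : Fact ℓ.Prime] {n : Type*} [Fintype n] [DecidableEq n]

/-- All entries have norm at most `t`. -/
def Bd (C : Matrix n n ℚ_[ℓ]) (t : ℝ) : Prop := ∀ i j, ‖C i j‖ ≤ t

lemma Bd.add {C D : Matrix n n ℚ_[ℓ]} {s t : ℝ} (hC : Bd C s) (hD : Bd D t) :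
    Bd (C + D) (max s t) := fun i j =>
  (IsUltrametricDist.norm_add_le_max (C i j) (D i j)).trans (max_le_max (hC i j) (hD i j))

lemma Bd.mono {C : Matrix n n ℚ_[ℓ]} {s t : ℝ} (hC : Bd C s) (h : s ≤ t) : Bd C t :=
  fun i j => (hC i j).trans h

lemma Bd.mul {C D : Matrix n n ℚ_[ℓ]} {s t : ℝ} (hC : Bd C s) (hD : Bd D t) (hs : 0 ≤ s)
    (ht : 0 ≤ t) : Bd (C * D) (s * t) := by
  intro i j
  rw [Matrix.mul_apply]
  refine IsUltrametricDist.norm_sum_le_of_forall_le_of_nonneg (mul_nonneg hs ht) fun k _ => ?_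
  rw [norm_mul]
  exact mul_le_mul (hC i k) (hD k j) (norm_nonneg _) hs

lemma Bd.natCast (m : ℕ) : Bd ((m : Matrix n n ℚ_[ℓ])) 1 := by
  intro i j
  rw [← Matrix.diagonal_natCast]
  by_cases h : i = j
  · rw [h, Matrix.diagonal_apply_eq]
    have := Padic.norm_int_le_one (p := ℓ) (m : ℤ)
    simpa using this
  · rw [Matrix.diagonal_apply_ne _ h, norm_zero]
    exact zero_le_one

lemma Bd.one : Bd (1 : Matrix n n ℚ_[ℓ]) 1 := by
  have := Bd.natCast (ℓ := ℓ) (n := n) 1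
  rwa [Nat.cast_one] at this

lemma pow_expand {C : Matrix n n ℚ_[ℓ]} (hC : Bd C 1) (m : ℕ) :
    ∃ D, Bd D 1 ∧ (1 + C) ^ m = 1 + m • C + C ^ 2 * D := by
  induction m with
  | zero => exact ⟨0, fun i j => by simp, by simp⟩
  | succ m ih =>
    obtain ⟨D, hD, h⟩ := ih
    refine ⟨(m : Matrix n n ℚ_[ℓ]) + (D + D * C), ?_, ?_⟩
    · have h1 := (Bd.natCast (ℓ := ℓ) (n := n) m).add (hD.add (hD.mul hC zero_le_one zero_le_one))
      exact h1.mono (by norm_num)
    · rw [pow_succ, h]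
      have e : (m • C : Matrix n n ℚ_[ℓ]) = (m : Matrix n n ℚ_[ℓ]) * C := by
        rw [nsmul_eq_mul]
      have hc : (m : Matrix n n ℚ_[ℓ]) * C = C * (m : Matrix n n ℚ_[ℓ]) := Nat.cast_comm m C
      rw [add_smul, one_smul, e]
      have e2 : C ^ 2 * (m : Matrix n n ℚ_[ℓ]) = (m : Matrix n n ℚ_[ℓ]) * C * C := by
        rw [sq, mul_assoc, ← hc, ← mul_assoc, hc]
      rw [mul_add (C ^ 2), e2]
      noncomm_ring

/-- Matrices of finite order which are close to one. -/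
theorem eq_one_of_pow {B : Matrix n n ℚ_[ℓ]} {m : ℕ} (hm : 0 < m)
    (hB : Bd (B - 1) ((ℓ : ℝ)⁻¹ ^ 2)) (h : B ^ m = 1) : B = 1 := by
  have hl1 : (1 : ℝ) < ℓ := by exact_mod_cast hℓ.out.one_lt
  have hl0 : (0 : ℝ) < (ℓ : ℝ)⁻¹ := by positivity
  have hl2 : (ℓ : ℝ)⁻¹ < 1 := inv_lt_one_of_one_lt₀ hl1
  have hl3 : (ℓ : ℝ)⁻¹ ^ 2 ≤ 1 := by nlinarith
  have hprime : ∀ (p : ℕ), p.Prime → ∀ B : Matrix n n ℚ_[ℓ], Bd (B - 1) ((ℓ : ℝ)⁻¹ ^ 2) →
      B ^ p = 1 → B = 1 := by
    intro p hp B hB h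
    by_contra hne
    set C := B - 1 with hC
    have hB1 : B = 1 + C := by rw [hC]; abel
    have hC0 : C ≠ 0 := fun h0 => hne (by rw [hB1, h0, add_zero])
    obtain ⟨i₀, j₀, h0⟩ : ∃ i j, C i j ≠ 0 := by
      by_contra hcon
      push Not at hcon
      exact hC0 (Matrix.ext hcon)
    obtain ⟨⟨i, j⟩, hij⟩ : ∃ ij : n × n, ∀ x : n × n, ‖C x.1 x.2‖ ≤ ‖C ij.1 ij.2‖ := by
      have : Nonempty (n × n) := ⟨(i₀, j₀)⟩
      exact Finite.exists_max fun x : n × n => ‖C x.1 x.2‖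
    set t := ‖C i j‖ with ht
    have ht0 : 0 < t := lt_of_lt_of_le (norm_pos_iff.2 h0) (hij (i₀, j₀))
    have hCt : Bd C t := fun a b => hij (a, b)
    obtain ⟨D, hD, hexp⟩ := pow_expand (hB.mono hl3) p
    rw [← hB1, h] at hexp
    have h1 : (p : ℚ_[ℓ]) * C i j = -((C ^ 2 * D) i j) := by
      have h2 : p • C + C ^ 2 * D = 0 := by
        have h3 : (1 : Matrix n n ℚ_[ℓ]) + (p • C + C ^ 2 * D) = 1 := by
          rw [← add_assoc]; exact hexp.symm
        exact add_eq_left.1 h3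
      have h4 := congrFun (congrFun h2 i) j
      rw [Matrix.add_apply, Matrix.smul_apply, nsmul_eq_mul, Matrix.zero_apply] at h4
      exact eq_neg_of_add_eq_zero_left h4
    have h2 : ‖(p : ℚ_[ℓ])‖ * t ≤ t ^ 2 := by
      rw [ht, ← norm_mul, h1, norm_neg, ← ht]
      have h3 := ((hCt.mul hCt ht0.le ht0.le).mul hD (by positivity) zero_le_one) i j
      rw [← sq] at h3
      refine h3.trans ?_
      rw [mul_one, sq]
    have h3 : (ℓ : ℝ)⁻¹ ≤ ‖(p : ℚ_[ℓ])‖ := by
      by_cases hpl : p = ℓ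
      · rw [hpl, Padic.norm_p]
      · have : ‖(p : ℚ_[ℓ])‖ = 1 :=
          Padic.norm_natCast_eq_one_iff.2 ((Nat.coprime_primes hℓ.out hp).2 (Ne.symm hpl))
        rw [this]
        exact hl2.le
    have h4 : (ℓ : ℝ)⁻¹ ≤ t := by
      have h5 : (ℓ : ℝ)⁻¹ * t ≤ t * t := by
        calc (ℓ : ℝ)⁻¹ * t ≤ ‖(p : ℚ_[ℓ])‖ * t := mul_le_mul_of_nonneg_right h3 ht0.le
          _ ≤ t ^ 2 := h2
          _ = t * t := sq t
      exact le_of_mul_le_mul_right h5 ht0
    have h5 : t ≤ (ℓ : ℝ)⁻¹ ^ 2 := hB i j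
    nlinarith
  induction m using Nat.strong_induction_on generalizing B with
  | h m ih =>
    by_cases hm1 : m = 1
    · rw [hm1, pow_one] at h; exact h
    obtain ⟨p, hp, hpm⟩ := Nat.exists_prime_and_dvd hm1
    obtain ⟨m', rfl⟩ := hpm
    have hm' : 0 < m' := Nat.pos_of_mul_pos_left hm
    refine ih m' (by nlinarith [hp.two_le]) hm' hB ?_
    refine hprime p hp _ ?_ (by rw [← pow_mul, mul_comm]; exact h)
    have key : ∀ m : ℕ, Bd (B ^ m - 1) ((ℓ : ℝ)⁻¹ ^ 2) := by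
      intro m
      induction m with
      | zero => rw [pow_zero, sub_self]; exact fun i j => by simp
      | succ m ih =>
        have e : B ^ (m + 1) - 1 = (B ^ m - 1) * (B - 1) + ((B ^ m - 1) + (B - 1)) := by
          rw [pow_succ]; noncomm_ring
        rw [e]
        refine ((ih.mul hB (by positivity) (by positivity)).add (ih.add hB)).mono ?_
        rw [max_self, max_le_iff]
        exact ⟨by nlinarith [sq_nonneg ((ℓ : ℝ)⁻¹)], le_rfl⟩
    exact key m'

end Matrix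

section Rep

universe v w

variable {K : Type v} [Field K] {A : Type v} [Ring A] [Algebra K A] [Module.Finite K A] {ℓ : ℕ}
  [hℓ : Fact ℓ.Prime] {e : K ≃+* ℚ_[ℓ]} {Γ : Type w} [Group Γ] [TopologicalSpace Γ]
  [IsTopologicalGroup Γ] [CompactSpace Γ] [TotallyDisconnectedSpace Γ] {χ : Γ →* Kˣ}
  {D : Subgroup Γ} {ρ : AutRep K A D}

/-- An element on which all elements of the group have finite order is fixed by an open subgroup. -/
theorem almostTwisted_of_torsion (hχ : IsContinuousChar e χ) (hρ : IsContinuousRep e ρ) {x : A}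
    {j : ℕ} (h : ∀ g : Γ, ∃ n : ℕ, 0 < n ∧ ∃ h : g ^ n ∈ D, ρ ⟨g ^ n, h⟩ x =
      (χ g : K) ^ (n * j) • x) : AlmostTwisted χ ρ j x := by
  classical
  let R : D →* Module.End K A :=
    { toFun := fun d => ((((χ d)⁻¹ ^ j : Kˣ)) : K) • (ρ d).toLinearMap
      map_one' := by
        rw [OneMemClass.coe_one, map_one, inv_one, one_pow, Units.val_one, one_smul, map_one]
        rfl
      map_mul' := fun a b => by
        apply LinearMap.ext
        intro y
        rw [Subgroup.coe_mul, map_mul, map_mul, mul_inv, mul_pow, Units.val_mul]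
        have h1 : ρ a ((((χ b)⁻¹ ^ j : Kˣ) : K) • ρ b y) =
            (((χ b)⁻¹ ^ j : Kˣ) : K) • ρ a (ρ b y) := map_smul _ _ _
        change ((((χ a)⁻¹ ^ j : Kˣ) : K) * (((χ b)⁻¹ ^ j : Kˣ) : K)) • (ρ a (ρ b y)) =
          (((χ a)⁻¹ ^ j : Kˣ) : K) • (ρ a ((((χ b)⁻¹ ^ j : Kˣ) : K) • ρ b y))
        rw [h1, smul_smul] }
  have hR : ∀ (d : D) y, R d y = ((((χ d)⁻¹ ^ j : Kˣ)) : K) • ρ d y := fun _ _ => rfl
  let V : Submodule K A := Submodule.span K (Set.range fun d : D => ρ d x)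
  have hxV : x ∈ V := Submodule.subset_span ⟨1, by beta_reduce; rw [map_one]; rfl⟩
  have hV : ∀ (d : D), ∀ y ∈ V, R d y ∈ V := by
    intro d y hy
    rw [hR]
    refine Submodule.smul_mem _ _ ?_
    induction hy using Submodule.span_induction with
    | mem y hy =>
      obtain ⟨d', rfl⟩ := hy
      refine Submodule.subset_span ⟨d * d', ?_⟩
      beta_reduce
      rw [map_mul]; rfl
    | zero => rw [map_zero]; exact Submodule.zero_mem _
    | add a b _ _ ha hb => rw [map_add]; exact Submodule.add_mem _ ha hb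
    | smul c a _ ha => rw [map_smul]; exact Submodule.smul_mem _ _ ha
  -- every element of the group has finite order on `V`
  have huni : ∀ d : D, V ≤ uni (R d) 1 := by
    intro d
    rw [Submodule.span_le]
    rintro _ ⟨d', rfl⟩
    obtain ⟨n, hn, hm, h1⟩ := h ((d' : Γ)⁻¹ * d * d')
    refine ⟨n, hn, ?_⟩
    rw [pow_one, LinearMap.sub_apply, End.one_apply, ← map_pow, hR, sub_eq_zero]
    have e1 : ((χ ((d' : Γ)⁻¹ * d * d') : Kˣ) : K) = χ d := by
      congr 1
      rw [map_mul, map_mul, map_inv, mul_comm, mul_inv_cancel_left]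
    have e2 : (d ^ n) * d' = d' * ⟨((d' : Γ)⁻¹ * d * d') ^ n, hm⟩ := by
      apply Subtype.ext
      rw [Subgroup.coe_mul, Subgroup.coe_mul, Subgroup.coe_pow]
      change (d : Γ) ^ n * d' = d' * ((d' : Γ)⁻¹ * d * d') ^ n
      have := conj_pow (i := n) (a := (d' : Γ)⁻¹) (b := (d : Γ))
      rw [inv_inv] at this
      rw [this]
      group
    have e3 : ρ (d ^ n) (ρ d' x) = (χ d : K) ^ (n * j) • ρ d' x := by
      have : ρ (d ^ n) (ρ d' x) = ρ (d ^ n * d') x := by rw [map_mul]; rfl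
      rw [this, e2, map_mul]
      change ρ d' (ρ _ x) = _
      rw [h1, map_smul, e1]
    rw [e3, smul_smul, Subgroup.coe_pow, map_pow]
    have e4 : ((((χ (d : Γ)) ^ n)⁻¹ ^ j : Kˣ) : K) * (χ (d : Γ) : K) ^ (n * j) = 1 := by
      rw [inv_pow, ← pow_mul, ← Units.val_pow_eq_pow_val, ← Units.val_mul, inv_mul_cancel,
        Units.val_one]
    rw [e4, one_smul]
  let b := Module.finBasis K V
  set r := finrank K V with hr
  have hfin : ∀ d : D, ∃ n : ℕ, 0 < n ∧ ∀ y ∈ V, (R d ^ n) y = y := by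
    intro d
    have h1 : ∀ i, ∃ n : ℕ, 0 < n ∧ (R d ^ n) (b i : A) = b i := by
      intro i
      obtain ⟨n, hn, h2⟩ := huni d (b i).2
      rw [pow_one, LinearMap.sub_apply, End.one_apply, sub_eq_zero] at h2
      exact ⟨n, hn, h2⟩
    choose n hn hn' using h1
    refine ⟨∏ i, n i, Finset.prod_pos fun i _ => hn i, fun y hy => ?_⟩
    have h2 : ∀ i, (R d ^ ∏ i, n i) (b i : A) = b i := by
      intro i
      have h3 := sub_one_pow_dvd (R d) (n i) (∏ i ∈ Finset.univ.erase i, n i) 1 (x := (b i : A))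
        (by rw [pow_one, LinearMap.sub_apply, End.one_apply, hn' i, sub_self])
      rw [Finset.mul_prod_erase _ _ (Finset.mem_univ i), pow_one, LinearMap.sub_apply,
        End.one_apply, sub_eq_zero] at h3
      exact h3
    have h3 : y = ∑ i, b.repr ⟨y, hy⟩ i • (b i : A) := by
      have := congrArg Subtype.val (b.sum_repr ⟨y, hy⟩)
      simp only [AddSubmonoidClass.coe_finsetSum, Submodule.coe_smul] at this
      exact this.symm
    rw [h3, map_sum]
    exact Finset.sum_congr rfl fun i _ => by rw [map_smul, h2]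
  let M : D → Matrix (Fin r) (Fin r) K := fun d => LinearMap.toMatrix b b ((R d).restrict (hV d))
  have hM : ∀ d k i, M d k i = b.repr ((R d).restrict (hV d) (b i)) k := fun d k i =>
    LinearMap.toMatrix_apply _ _ _ _ _
  have hMpow : ∀ d, ∃ n : ℕ, 0 < n ∧ M d ^ n = 1 := by
    intro d
    obtain ⟨n, hn, h1⟩ := hfin d
    refine ⟨n, hn, ?_⟩
    have h2 : (R d).restrict (hV d) ^ n = 1 := by
      apply LinearMap.ext
      intro y
      apply Subtype.ext
      have h3 : ∀ (n : ℕ) (y : V), ((((R d).restrict (hV d) ^ n) y : V) : A) =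
          (R d ^ n) (y : A) := by
        intro n
        induction n with
        | zero => intro y; rfl
        | succ n ih =>
          intro y
          rw [pow_succ, pow_succ, End.mul_apply, End.mul_apply, ih]
          rfl
      rw [h3, h1 _ y.2]
      rfl
    change (LinearMap.toMatrix b b ((R d).restrict (hV d))) ^ n = 1
    rw [LinearMap.toMatrix_pow, h2, LinearMap.toMatrix_one]
  have hcoord : ∀ k, ∃ φ : Module.Dual K A, ∀ y (hy : y ∈ V), φ y = b.repr ⟨y, hy⟩ k := by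
    intro k
    obtain ⟨φ, hφ⟩ := LinearMap.exists_extend (b.coord k)
    refine ⟨φ, fun y hy => ?_⟩
    exact congrArg (fun f : V →ₗ[K] K => f ⟨y, hy⟩) hφ
  choose φ hφ using hcoord
  let B : D → Matrix (Fin r) (Fin r) ℚ_[ℓ] := fun d => (M d).map e
  have hBe : ∀ d k i, B d k i = (e (χ (d : Γ)))⁻¹ ^ j * e (φ k (ρ d (b i))) := by
    intro d k i
    change e (M d k i) = _
    have h1 : (R d (b i : A)) ∈ V := hV d _ (b i).2
    have h2 : M d k i = ((((χ (d : Γ))⁻¹ ^ j : Kˣ)) : K) * φ k (ρ d (b i)) := by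
      rw [hM]
      change b.repr ⟨R d (b i), h1⟩ k = _
      rw [← hφ k _ h1, hR, map_smul, smul_eq_mul]
    rw [h2, map_mul, Units.val_pow_eq_pow_val, Units.val_inv_eq_inv_val, map_pow, map_inv₀]
  have hcont : ∀ k i, Continuous fun d : D => B d k i := by
    intro k i
    simp only [hBe]
    refine Continuous.mul ?_ (hρ.continuous (φ k) (b i))
    refine Continuous.pow (Continuous.inv₀ (hχ.comp continuous_subtype_val) fun d => ?_) j
    exact (map_ne_zero e).2 (χ (d : Γ)).ne_zero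
  have hl0 : (0 : ℝ) < (ℓ : ℝ)⁻¹ ^ 2 := by
    have : (0 : ℝ) < ℓ := by exact_mod_cast hℓ.out.pos
    positivity
  let U : Set D := ⋂ k, ⋂ i, {d | ‖B d k i - (1 : Matrix (Fin r) (Fin r) ℚ_[ℓ]) k i‖ <
    (ℓ : ℝ)⁻¹ ^ 2}
  have hUo : IsOpen U := isOpen_iInter_of_finite fun k => isOpen_iInter_of_finite fun i =>
    isOpen_lt ((hcont k i).sub continuous_const).norm continuous_const
  have hU1 : (1 : D) ∈ U := by
    refine Set.mem_iInter₂.2 fun k i => ?_
    have h1 : M 1 = 1 := by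
      change LinearMap.toMatrix b b _ = 1
      have : (R 1).restrict (hV 1) = 1 := by
        apply LinearMap.ext
        intro y
        apply Subtype.ext
        change R 1 (y : A) = y
        rw [map_one]; rfl
      rw [this, LinearMap.toMatrix_one]
    have h2 : B 1 = 1 := by
      change (M 1).map e = 1
      rw [h1]
      exact Matrix.map_one _ (map_zero e) (map_one e)
    change ‖B 1 k i - (1 : Matrix (Fin r) (Fin r) ℚ_[ℓ]) k i‖ < _
    rw [h2, sub_self, norm_zero]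
    exact hl0
  have hUΓ : IsOpen ((fun d : D => (d : Γ)) '' U) := hρ.isOpen.isOpenMap_subtype_val U hUo
  obtain ⟨N, hN⟩ := ProfiniteGrp.exist_openNormalSubgroup_sub_open_nhds_of_one hUΓ
    ⟨1, hU1, rfl⟩
  have hfi : (N.toSubgroup).FiniteIndex := by
    have := Subgroup.quotient_finite_of_isOpen N.toSubgroup N.isOpen'
    exact Subgroup.finiteIndex_of_finite_quotient
  refine ⟨N.toSubgroup, hfi, fun g hg hgD => ?_⟩
  obtain ⟨d, hd, hdg⟩ := hN hg
  have hdg' : d = ⟨g, hgD⟩ := Subtype.ext hdg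
  rw [hdg'] at hd
  obtain ⟨n, hn, h1⟩ := hMpow ⟨g, hgD⟩
  have h2 : B ⟨g, hgD⟩ = 1 := by
    refine eq_one_of_pow hn ?_ ?_
    · intro k i
      exact (Set.mem_iInter₂.1 hd k i).le
    · change ((M ⟨g, hgD⟩).map e) ^ n = 1
      have h3 : (M ⟨g, hgD⟩).map e = (e : K →+* ℚ_[ℓ]).mapMatrix (M ⟨g, hgD⟩) := rfl
      rw [h3, ← map_pow, h1, map_one]
  have h3 : M ⟨g, hgD⟩ = 1 := by
    ext k i
    have h4 : e (M ⟨g, hgD⟩ k i) = (1 : Matrix (Fin r) (Fin r) ℚ_[ℓ]) k i :=
      congrFun (congrFun h2 k) i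
    apply e.injective
    rw [h4, Matrix.one_apply, Matrix.one_apply]
    split_ifs
    · rw [map_one]
    · rw [map_zero]
  have h4 : (R ⟨g, hgD⟩).restrict (hV ⟨g, hgD⟩) = 1 := by
    apply (LinearMap.toMatrix b b).injective
    rw [LinearMap.toMatrix_one]
    exact h3
  have h5 : R ⟨g, hgD⟩ x = x :=
    congrArg (fun f : V →ₗ[K] V => ((f ⟨x, hxV⟩ : V) : A)) h4
  rw [hR] at h5
  have h6 := congrArg (fun y => ((χ g : Kˣ) : K) ^ j • y) h5
  simp only [smul_smul] at h6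
  rw [Units.val_pow_eq_pow_val, Units.val_inv_eq_inv_val, ← mul_pow, mul_inv_cancel₀
    (χ g).ne_zero, one_pow, one_smul] at h6
  exact h6

end Rep

end Pool.Agent.NH34.ZO
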